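import Pool.Agent.H8.ORD.Jmp

/-!
# Counting convex subgroups

`count`: a chain of convex subgroups between the ends of a series of length `t` with abelian
factors has at most `t r` steps. `CS G`: the chain of convex subgroups of `G`.
`cj_fix`: conjugation by an element of `B` fixes the members of a finite interval `[A, B]`.
`icc_bound`: a finite interval has at most `2 r ^ 2 + 1` members. `hausdorff`: if the finite
intervals are bounded, then the chain is finite or contains a copy of `ℚ`.
-/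

set_option autoImplicit false

namespace Pool.Agent.H8.ORD

open Subgroup
open scoped commutatorElement

section Orders

theorem encard_le_of_chains {α : Type*} [LinearOrder α] {s : Set α} {b : ℕ}
    (h : ∀ (m : ℕ) (E : ℕ → α), (∀ i ≤ m, E i ∈ s) → (∀ i < m, E i < E (i + 1)) → m ≤ b) :
    s.encard ≤ ((b + 1 : ℕ) : ℕ∞) := by
  by_contra hcon
  push Not at hcon
  have h2 : ((b + 2 : ℕ) : ℕ∞) ≤ s.encard := by
    have h3 := Order.add_one_le_of_lt hcon
    have e : ((b + 2 : ℕ) : ℕ∞) = ((b + 1 : ℕ) : ℕ∞) + 1 := by push_cast; rfl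
    rw [e]
    exact h3
  obtain ⟨t, hts, ht⟩ := Set.exists_subset_encard_eq h2
  have hfin : t.Finite := Set.finite_of_encard_eq_coe ht
  have hcard : hfin.toFinset.card = b + 2 := by
    rw [hfin.encard_eq_coe_toFinset_card] at ht
    exact_mod_cast ht
  let φ := hfin.toFinset.orderEmbOfFin hcard
  have h4 := h (b + 1) (fun i => φ ⟨min i (b + 1), by omega⟩)
    (fun i _ => hts (by
      have := hfin.toFinset.orderEmbOfFin_mem hcard ⟨min i (b + 1), by omega⟩
      exact hfin.mem_toFinset.1 this))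
    (fun i hi => φ.strictMono (by
      show min i (b + 1) < min (i + 1) (b + 1)
      omega))
  omega

/-- **Hausdorff.** -/
theorem hausdorff {α : Type*} [LinearOrder α] (h : IsEmpty (ℚ ↪o α)) (b : ℕ)
    (hb : ∀ x y : α, (Set.Icc x y).Finite → (Set.Icc x y).encard ≤ b) (x y : α) :
    (Set.Icc x y).Finite := by
  by_contra hcon
  have hxy : x ≤ y := by
    by_contra h1
    exact hcon (by rw [Set.Icc_eq_empty h1]; exact Set.finite_empty)
  let S : Setoid α :=
    { r := fun a c => (Set.uIcc a c).Finite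
      iseqv :=
        { refl := fun a => by rw [Set.uIcc_self]; exact Set.finite_singleton a
          symm := fun {a c} h1 => by rw [Set.uIcc_comm]; exact h1
          trans := fun {a c d} h1 h2 =>
            (h1.union h2).subset Set.uIcc_subset_uIcc_union_uIcc } }
  have hS : ∀ a c : α, S a c ↔ (Set.uIcc a c).Finite := fun a c => Iff.rfl
  have hSle : ∀ a c : α, a ≤ c → (S a c ↔ (Set.Icc a c).Finite) := by
    intro a c hac
    rw [hS, Set.uIcc_of_le hac]
  have hrefl : ∀ a, S a a := S.refl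
  have hsymm : ∀ {a c}, S a c → S c a := S.symm
  have htrans : ∀ {a c d}, S a c → S c d → S a d := S.trans
  -- subintervals
  have hsub : ∀ {a c d : α}, a ≤ c → c ≤ d → S a d → S a c ∧ S c d := by
    intro a c d h1 h2 h3
    rw [hSle _ _ (h1.trans h2)] at h3
    rw [hSle _ _ h1, hSle _ _ h2]
    exact ⟨h3.subset (Set.Icc_subset_Icc_right h2), h3.subset (Set.Icc_subset_Icc_left h1)⟩
  -- blocks are finite
  have hblock : ∀ a : α, {c | S a c}.Finite := by
    intro a
    by_contra hinf
    obtain ⟨t, ht1, ht2⟩ := Set.Infinite.exists_subset_card_eq hinf (b + 1)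
    have hne : t.Nonempty := Finset.card_pos.1 (by omega)
    have h1 : S a (t.min' hne) := ht1 (t.min'_mem hne)
    have h2 : S a (t.max' hne) := ht1 (t.max'_mem hne)
    have h3 : S (t.min' hne) (t.max' hne) := htrans (hsymm h1) h2
    rw [hSle _ _ (t.min'_le_max' hne)] at h3
    have h4 := hb _ _ h3
    have h5 : ((t : Set α)).encard ≤ (Set.Icc (t.min' hne) (t.max' hne)).encard :=
      Set.encard_le_encard fun z hz => ⟨t.min'_le z hz, t.le_max' z hz⟩
    rw [Set.encard_coe_eq_coe_finsetCard, ht2] at h5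
    have h6 := h5.trans h4
    have h7 : b + 1 ≤ b := by exact_mod_cast h6
    omega
  -- representatives
  let ρ : α → α := fun a => (Quotient.mk S a).out
  have hρ : ∀ a, S (ρ a) a := fun a => Quotient.exact (Quotient.out_eq (Quotient.mk S a))
  have hρρ : ∀ a c, S a c → ρ a = ρ c := fun a c h1 => by
    show (Quotient.mk S a).out = (Quotient.mk S c).out
    rw [Quotient.sound (s := S) h1]
  let T : Set α := {a | ρ a = a}
  have hT : ∀ a, ρ a ∈ T := fun a => hρρ _ _ (hρ a)
  have hTS : ∀ a ∈ T, ∀ c ∈ T, S a c → a = c := by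
    intro a ha c hc h1
    have h2 := hρρ a c h1
    rwa [show ρ a = a from ha, show ρ c = c from hc] at h2
  have hnxy : ¬ S x y := by
    rw [hSle _ _ hxy]
    exact hcon
  have hnt : Nontrivial T := by
    refine ⟨⟨ρ x, hT x⟩, ⟨ρ y, hT y⟩, fun h1 => hnxy ?_⟩
    have h2 : ρ x = ρ y := congrArg Subtype.val h1
    have h3 := hρ x
    rw [h2] at h3
    exact htrans (hsymm h3) (hρ y)
  have hden : DenselyOrdered T := by
    refine ⟨?_⟩
    rintro ⟨a, ha⟩ ⟨c, hc⟩ hac
    have hac' : a < c := hac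
    have hnac : ¬ S a c := fun h1 => hac'.ne (hTS a ha c hc h1)
    obtain ⟨d, hd1, hd2, hd3, hd4⟩ : ∃ d, a ≤ d ∧ d ≤ c ∧ ¬ S a d ∧ ¬ S c d := by
      by_contra h1
      push Not at h1
      apply hnac
      rw [hSle _ _ hac'.le]
      refine ((hblock a).union (hblock c)).subset ?_
      intro d hd
      by_cases h2 : S a d
      · exact Or.inl h2
      · exact Or.inr (h1 d hd.1 hd.2 h2)
    refine ⟨⟨ρ d, hT d⟩, ?_, ?_⟩
    · show a < ρ d
      by_contra h1
      push Not at h1
      have h2 := (hsub h1 hd1 (hρ d)).2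
      exact hd3 h2
    · show ρ d < c
      by_contra h1
      push Not at h1
      have h2 := (hsub hd2 h1 (hsymm (hρ d))).1
      exact hd4 (hsymm h2)
  obtain ⟨e⟩ := Order.embedding_from_countable_to_dense ℚ T
  exact h.false (e.trans (OrderEmbedding.subtype _))

end Orders

variable {G : Type*} [Group G] [LinearOrder G]

/-- The convex subgroups. -/
abbrev CS (G : Type*) [Group G] [LinearOrder G] : Type _ :=
  {C : Subgroup G // (C : Set G).OrdConnected}

variable [MulLeftMono G] [MulRightMono G]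

/-- The convex subgroups are linearly ordered by inclusion. -/
noncomputable abbrev csLin : LinearOrder (CS G) :=
  { (inferInstance : PartialOrder (CS G)) with
    le_total := fun a b => cv_total a.2 b.2
    toDecidableLE := Classical.decRel _ }

attribute [local instance] csLin

/-- **Counting.** -/
theorem count {r t m : ℕ} (hr : NS G r) (E N : ℕ → Subgroup G)
    (hE : ∀ i ≤ m, Cv (E i)) (hlt : ∀ i < m, E i < E (i + 1)) (h0 : E m ≤ N 0) (ht : N t ≤ E 0)
    (hN : ∀ j < t, ⁅N j, N j⁆ ≤ N (j + 1)) : m ≤ t * r := by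
  classical
  by_contra hcon
  push Not at hcon
  have hmono : ∀ i j, i ≤ j → j ≤ m → E i ≤ E j := by
    intro i j hij
    induction j, hij using Nat.le_induction with
    | base => intro _; exact le_rfl
    | succ j hij ih => intro hj; exact (ih (by omega)).trans (hlt j (by omega)).le
  have hex : ∀ i < m, ∃ j < t, ¬ (N j ⊓ E (i + 1) ≤ E i) ∧ N (j + 1) ⊓ E (i + 1) ≤ E i := by
    intro i hi
    have h1 : ∃ j, N j ⊓ E (i + 1) ≤ E i :=
      ⟨t, inf_le_left.trans (ht.trans (hmono 0 i (Nat.zero_le _) hi.le))⟩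
    have h2 := Nat.find_spec h1
    have h3 : ∀ j, j < Nat.find h1 → ¬ (N j ⊓ E (i + 1) ≤ E i) := fun j hj => Nat.find_min h1 hj
    have h4 : Nat.find h1 ≤ t :=
      Nat.find_min' h1 (inf_le_left.trans (ht.trans (hmono 0 i (Nat.zero_le _) hi.le)))
    generalize Nat.find h1 = j at h2 h3 h4
    rcases j with - | j
    · exfalso
      have h5 : E (i + 1) ≤ N 0 := (hmono (i + 1) m hi le_rfl).trans h0
      rw [inf_eq_right.2 h5] at h2
      exact (hlt i hi).not_ge h2
    · exact ⟨j, by omega, h3 j (Nat.lt_succ_self j), h2⟩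
  choose! j hj1 hj2 hj3 using hex
  obtain ⟨q, hq, hcard⟩ := Finset.exists_lt_card_fiber_of_mul_lt_card_of_maps_to
    (s := Finset.range m) (t := Finset.range t) (f := j) (n := r)
    (fun i hi => Finset.mem_range.2 (hj1 i (Finset.mem_range.1 hi))) (by simpa using hcon)
  have hqt : q < t := Finset.mem_range.1 hq
  let φ := Finset.orderEmbOfCardLe ((Finset.range m).filter fun i => j i = q) (k := r + 1) hcard
  have hφ : ∀ i, φ i < m ∧ j (φ i) = q := by
    intro i
    have h1 := Finset.orderEmbOfCardLe_mem ((Finset.range m).filter fun i => j i = q) hcard i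
    rw [Finset.mem_filter, Finset.mem_range] at h1
    exact h1
  have hy : ∀ i < m, ∃ y, y ∈ N (j i) ∧ y ∈ E (i + 1) ∧ y ∉ E i := by
    intro i hi
    have h1 := hj2 i hi
    rw [SetLike.not_le_iff_exists] at h1
    obtain ⟨y, hy, hy'⟩ := h1
    exact ⟨y, hy.1, hy.2, hy'⟩
  choose! y hy1 hy2 hy3 using hy
  have ha : ∀ i : Fin (r + 1), φ i.rev < m := fun i => (hφ _).1
  refine indep_absurd hr (fun i => y (φ i.rev)) (fun i => E (φ i.rev))
    (fun i => E (φ i.rev + 1)) (fun i => hE _ (ha i).le) (fun i => hy3 _ (ha i)) ?_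
    (fun i => hy2 _ (ha i)) (fun i => (hlt _ (ha i)).le) (N (q + 1)) ?_ ?_
  · intro i i' hii
    have h1 : φ i'.rev < φ i.rev := φ.strictMono (Fin.rev_lt_rev.2 hii)
    exact hmono _ _ h1 (ha i).le (hy2 _ (ha i'))
  · intro i
    have h1 := hj3 _ (ha i)
    rw [(hφ _).2] at h1
    exact h1
  · have hcl : closure (Set.range fun i : Fin (r + 1) => y (φ i.rev)) ≤ N q := by
      rw [closure_le]
      rintro _ ⟨i, rfl⟩
      have h1 := hy1 _ (ha i)
      rw [(hφ _).2] at h1
      exact h1
    intro u hu v hv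
    exact hN q hqt (commutator_mem_commutator (hcl hu) (hcl hv))

/-- Conjugation of convex subgroups. -/
def cj (g : G) (C : CS G) : CS G := ⟨C.1.map (MulAut.conj g).toMonoidHom, Cv.conj C.2 g⟩

theorem mem_cj {g : G} {C : CS G} {x : G} : x ∈ (cj g C).1 ↔ g⁻¹ * x * g ∈ C.1 := by
  constructor
  · rintro ⟨a, ha, rfl⟩
    have e : g⁻¹ * ((MulAut.conj g).toMonoidHom a) * g = a := by
      simp only [MulEquiv.coe_toMonoidHom, MulAut.conj_apply]
      group
    rw [e]
    exact ha
  · intro h
    refine ⟨g⁻¹ * x * g, h, ?_⟩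
    simp only [MulEquiv.coe_toMonoidHom, MulAut.conj_apply]
    group

theorem cj_cj (g : G) (C : CS G) : cj g⁻¹ (cj g C) = C := by
  apply Subtype.ext
  ext x
  rw [mem_cj, mem_cj]
  have e : g⁻¹ * (g⁻¹⁻¹ * x * g⁻¹) * g = x := by group
  rw [e]

theorem cj_mono (g : G) {C D : CS G} (h : C ≤ D) : cj g C ≤ cj g D := by
  intro x hx
  rw [mem_cj] at hx ⊢
  exact h hx

theorem cj_lt (g : G) {C D : CS G} (h : C < D) : cj g C < cj g D := by
  refine lt_of_le_of_ne (cj_mono g h.le) fun h1 => h.ne ?_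
  rw [← cj_cj g C, h1, cj_cj]

theorem cj_self {g : G} {C : CS G} (h : g ∈ C.1) : cj g C = C := by
  apply Subtype.ext
  ext x
  rw [mem_cj]
  constructor
  · intro h1
    have := mul_mem (mul_mem h h1) (inv_mem h)
    have e : g * (g⁻¹ * x * g) * g⁻¹ = x := by group
    rwa [e] at this
  · intro h1
    exact mul_mem (mul_mem (inv_mem h) h1) h

/-- Conjugation by an element of `B` fixes the members of a finite interval `[A, B]`. -/
theorem cj_fix {A B : CS G} (hfin : (Set.Icc A B).Finite) :
    ∀ C ∈ Set.Icc A B, ∀ f ∈ B.1, cj f C = C := by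
  by_contra hcon
  push Not at hcon
  have hne : {C : CS G | C ∈ Set.Icc A B ∧ ∃ f ∈ B.1, cj f C ≠ C}.Nonempty := by
    obtain ⟨C, hC, f, hf, h1⟩ := hcon
    exact ⟨C, hC, f, hf, h1⟩
  obtain ⟨C, ⟨hC, f, hf, h1⟩, hmax⟩ := Set.exists_max_image _ id
    (hfin.subset (fun C (hC : C ∈ Set.Icc A B ∧ _) => hC.1)) hne
  have key : ∀ f ∈ B.1, ¬ C < cj f C := by
    intro f hf h2
    have h3 : cj f C ≤ B := by
      rw [← cj_self hf]
      exact cj_mono f hC.2
    have h4 : cj f⁻¹ (cj f C) = cj f C := by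
      by_contra h5
      exact h2.not_ge (hmax (cj f C) ⟨⟨hC.1.trans h2.le, h3⟩, f⁻¹, inv_mem hf, h5⟩)
    rw [cj_cj] at h4
    exact h2.ne h4
  rcases lt_or_gt_of_ne h1 with h2 | h2
  · have h3 := cj_lt f⁻¹ h2
    rw [cj_cj] at h3
    exact key f⁻¹ (inv_mem hf) h3
  · exact key f hf h2

theorem ni_of_finite {A B : CS G} (hfin : (Set.Icc A B).Finite) : NI A.1 B.1 := by
  intro C hC h1 h2 f hf c hc
  have h3 := cj_fix hfin ⟨C, hC⟩ ⟨h1, h2⟩ f hf
  have h4 : f * c * f⁻¹ ∈ (cj f ⟨C, hC⟩).1 := by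
    rw [mem_cj]
    have e : f⁻¹ * (f * c * f⁻¹) * f = c := by group
    rw [e]
    exact hc
  rw [h3] at h4
  exact h4

/-- **Bound for an interval with normalized members.** -/
theorem icc_of_ni {r : ℕ} (hr : NS G r) {A B : CS G} (h : NI A.1 B.1) :
    (Set.Icc A B).encard ≤ ((2 * r ^ 2 + 1 : ℕ) : ℕ∞) := by
  rcases le_or_gt A B with hAB | hAB
  · refine encard_le_of_chains fun m E h1 h2 => ?_
    have h3 := lcs_le hr A.2 B.2 hAB h
    let N : ℕ → Subgroup G := fun j => Nat.casesOn j B.1
      fun j => (⁅B.1, B.1⁆ : Subgroup G).lowerCentralSeries j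
    have h4 : m ≤ (2 * r - 1 + 1) * r := by
      refine count hr (fun i => (E i).1) N (fun i _ => (E i).2) (fun i hi => h2 i hi)
        (h1 m le_rfl).2 (h3.trans (h1 0 (Nat.zero_le m)).1) ?_
      intro j _
      rcases j with - | j
      · exact le_rfl
      · exact commutator_mono le_rfl (lowerCentralSeries_le_self _ j)
    refine h4.trans ?_
    rcases r with - | r
    · simp
    · have e : 2 * (r + 1) - 1 + 1 = 2 * (r + 1) := by omega
      rw [e]
      exact le_of_eq (by ring)
  · rw [Set.Icc_eq_empty (not_le.2 hAB)]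
    simp

theorem icc_bound {r : ℕ} (hr : NS G r) {A B : CS G} (hfin : (Set.Icc A B).Finite) :
    (Set.Icc A B).encard ≤ ((2 * r ^ 2 + 1 : ℕ) : ℕ∞) :=
  icc_of_ni hr (ni_of_finite hfin)

/-- The least and the largest convex subgroup. -/
def cb : CS G := ⟨⊥, cv_bot⟩

/-- The largest convex subgroup. -/
def ct : CS G := ⟨⊤, cv_top⟩

omit [MulLeftMono G] [MulRightMono G] in
theorem mem_icc (C : CS G) : C ∈ Set.Icc (cb : CS G) ct := ⟨bot_le (a := C.1), le_top (a := C.1)⟩

/-- A chain without a copy of `ℚ` is finite. -/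
theorem icc_of_scattered {r : ℕ} (hr : NS G r) (h : IsEmpty (ℚ ↪o CS G)) :
    (Set.Icc (cb : CS G) ct).Finite :=
  hausdorff h _ (fun _ _ hfin => icc_bound hr hfin) _ _

/-- A copy of `ℚ` produces uncountably many convex subgroups. -/
theorem scattered_of_countable (hc : Countable (CS G)) : IsEmpty (ℚ ↪o CS G) := by
  refine ⟨fun φ => ?_⟩
  let K : ℝ → Set (Subgroup G) := fun x => {H | ∃ q : ℚ, (q : ℝ) < x ∧ H = (φ q).1}
  have hK : ∀ x, ∀ H ∈ K x, Cv H := by
    rintro x _ ⟨q, -, rfl⟩
    exact (φ q).2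
  have hne : ∀ x, (K x).Nonempty := by
    intro x
    obtain ⟨q, hq⟩ := exists_rat_lt x
    exact ⟨(φ q).1, q, hq, rfl⟩
  let U : ℝ → CS G := fun x => ⟨sSup (K x), cv_sSup (hK x) (hne x)⟩
  have hinj : StrictMono U := by
    intro x y hxy
    obtain ⟨q, hq1, hq2⟩ := exists_rat_btwn hxy
    obtain ⟨q', hq'1, hq'2⟩ := exists_rat_btwn hq2
    have h1 : U x ≤ φ q := by
      refine sSup_le (α := Subgroup G) ?_
      rintro _ ⟨p, hp, rfl⟩
      have h4 : p ≤ q := by
        have : (p : ℝ) < q := hp.trans hq1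
        exact_mod_cast this.le
      exact φ.monotone h4
    have h2 : φ q < φ q' := φ.strictMono (by exact_mod_cast hq'1)
    have h3 : φ q' ≤ U y := le_sSup (α := Subgroup G) ⟨q', hq'2, rfl⟩
    exact (h1.trans_lt h2).trans_le h3
  exact Cardinal.not_countable_real (Set.countable_univ_iff.2 hinj.injective.countable)

/-- A solvable group has finitely many convex subgroups. -/
theorem finite_of_solvable {r : ℕ} (hr : NS G r) (h : Group.IsSolvable G) :
    (Set.univ : Set (CS G)).Finite := by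
  obtain ⟨n, hn⟩ := (Group.isSolvable_def G).1 h
  have h1 : (Set.univ : Set (CS G)).encard ≤ ((n * r + 1 : ℕ) : ℕ∞) := by
    refine encard_le_of_chains fun m E _ h2 => ?_
    refine count hr (fun i => (E i).1) (derivedSeries G) (fun i _ => (E i).2)
      (fun i hi => h2 i hi) ?_ ?_ ?_
    · rw [derivedSeries_zero]
      exact le_top
    · rw [hn]
      exact bot_le
    · intro j _
      rw [derivedSeries_succ]
  exact Set.finite_of_encard_le_coe h1

end Pool.Agent.H8.ORD
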