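import Pool.Agent.H8.ORD.Nil

/-!
# Convex subgroups of an ordered group and the homomorphism of Hoelder

`ch x`: the smallest convex subgroup containing `x`. `dh x`: the largest convex subgroup not
containing `x` (for `x ≠ 1`). `ph x : G → ℝ` is a monotone homomorphism on `ch x` with kernel
`dh x` (for `1 < x`).
-/

set_option autoImplicit false

namespace Pool.Agent.H8.ORD

open Subgroup Filter Topology
open scoped commutatorElement

variable {G : Type*} [Group G] [LinearOrder G]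

/-- Convex subgroups. -/
def Cv (H : Subgroup G) : Prop := (H : Set G).OrdConnected

theorem Cv.mem {H : Subgroup G} (h : Cv H) {a b c : G} (ha : a ∈ H) (hc : c ∈ H) (h1 : a ≤ b)
    (h2 : b ≤ c) : b ∈ H :=
  h.out ha hc ⟨h1, h2⟩

theorem cv_mk {H : Subgroup G} (h : ∀ a ∈ H, ∀ c ∈ H, ∀ b, a ≤ b → b ≤ c → b ∈ H) : Cv H :=
  ⟨fun a ha c hc b hb => h a ha c hc b hb.1 hb.2⟩

theorem cv_top : Cv (⊤ : Subgroup G) := cv_mk fun _ _ _ _ b _ _ => mem_top b

theorem cv_bot : Cv (⊥ : Subgroup G) := cv_mk fun a ha c hc b h1 h2 => by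
  rw [Subgroup.mem_bot] at ha hc ⊢
  rw [ha] at h1
  rw [hc] at h2
  exact le_antisymm h2 h1

theorem Cv.inf {H K : Subgroup G} (h : Cv H) (h' : Cv K) : Cv (H ⊓ K) :=
  cv_mk fun _ ha _ hc _ h1 h2 => ⟨h.mem ha.1 hc.1 h1 h2, h'.mem ha.2 hc.2 h1 h2⟩

variable [MulLeftMono G] [MulRightMono G]

/-- One of `x`, `x⁻¹` is at least `1`. -/
theorem exists_pos (x : G) : ∃ y, 1 ≤ y ∧ ∀ H : Subgroup G, y ∈ H ↔ x ∈ H := by
  rcases le_total 1 x with h | h
  · exact ⟨x, h, fun _ => Iff.rfl⟩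
  · exact ⟨x⁻¹, by rwa [one_le_inv'], fun H => inv_mem_iff⟩

/-- The convex subgroups are a chain. -/
theorem cv_total {H K : Subgroup G} (h : Cv H) (h' : Cv K) : H ≤ K ∨ K ≤ H := by
  by_contra hcon
  rw [not_or, SetLike.not_le_iff_exists, SetLike.not_le_iff_exists] at hcon
  obtain ⟨⟨x, hx, hx'⟩, y, hy, hy'⟩ := hcon
  obtain ⟨u, hu, h1⟩ := exists_pos x
  obtain ⟨v, hv, h2⟩ := exists_pos y
  rw [← h1] at hx hx'
  rw [← h2] at hy hy'
  rcases le_total u v with h3 | h3
  · exact hx' (h'.mem (one_mem K) hy hu h3)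
  · exact hy' (h.mem (one_mem H) hx hv h3)

theorem cv_lt {H K : Subgroup G} (h : Cv H) (h' : Cv K) (hn : ¬ K ≤ H) : H ≤ K :=
  (cv_total h h').resolve_right hn

/-- Convex subgroups are isolated. -/
theorem Cv.of_pow {H : Subgroup G} (h : Cv H) {x : G} {k : ℤ} (hk : k ≠ 0) (hx : x ^ k ∈ H) :
    x ∈ H := by
  obtain ⟨y, hy, h1⟩ := exists_pos x
  have h2 : y ^ k.natAbs ∈ H := by
    have e : x ^ k.natAbs ∈ H := by
      rcases Int.natAbs_eq k with h3 | h3
      · rw [h3, zpow_natCast] at hx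
        exact hx
      · rw [h3, zpow_neg, zpow_natCast, inv_mem_iff] at hx
        exact hx
    rcases le_total 1 x with h3 | h3
    · have : y ∈ zpowers x ∧ x ∈ zpowers y := ⟨(h1 _).2 (mem_zpowers x), (h1 _).1 (mem_zpowers y)⟩
      obtain ⟨⟨l, hl⟩, -⟩ := this
      simp only at hl
      rw [← hl, ← zpow_natCast, ← zpow_mul, mul_comm, zpow_mul, zpow_natCast]
      exact zpow_mem e l
    · have : y ∈ zpowers x := (h1 _).2 (mem_zpowers x)
      obtain ⟨l, hl⟩ := this
      simp only at hl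
      rw [← hl, ← zpow_natCast, ← zpow_mul, mul_comm, zpow_mul, zpow_natCast]
      exact zpow_mem e l
  rw [← h1]
  refine h.mem (one_mem H) h2 hy ?_
  exact le_self_pow hy (Int.natAbs_ne_zero.2 hk)

/-- Conjugates of convex subgroups are convex. -/
theorem Cv.conj {H : Subgroup G} (h : Cv H) (g : G) : Cv (H.map (MulAut.conj g).toMonoidHom) := by
  refine cv_mk ?_
  rintro _ ⟨a, ha, rfl⟩ _ ⟨c, hc, rfl⟩ b h1 h2
  refine ⟨g⁻¹ * b * g, h.mem ha hc ?_ ?_, ?_⟩
  · have : g⁻¹ * (g * a * g⁻¹) * g ≤ g⁻¹ * b * g := by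
      refine mul_le_mul' (mul_le_mul' le_rfl ?_) le_rfl
      simpa using h1
    have e : g⁻¹ * (g * a * g⁻¹) * g = a := by group
    rwa [e] at this
  · have : g⁻¹ * b * g ≤ g⁻¹ * (g * c * g⁻¹) * g := by
      refine mul_le_mul' (mul_le_mul' le_rfl ?_) le_rfl
      simpa using h2
    have e : g⁻¹ * (g * c * g⁻¹) * g = c := by group
    rwa [e] at this
  · simp only [MulEquiv.coe_toMonoidHom, MulAut.conj_apply]
    group

/-- The union of a nonempty family of convex subgroups. -/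
theorem cv_sSup {K : Set (Subgroup G)} (hK : ∀ H ∈ K, Cv H) (hne : K.Nonempty) : Cv (sSup K) := by
  have hd : DirectedOn (· ≤ ·) K := by
    intro a ha b hb
    rcases cv_total (hK a ha) (hK b hb) with h | h
    · exact ⟨b, hb, h, le_rfl⟩
    · exact ⟨a, ha, le_rfl, h⟩
  refine cv_mk ?_
  intro a ha c hc b h1 h2
  rw [mem_sSup_of_directedOn hne hd] at ha hc ⊢
  obtain ⟨H, hH, ha⟩ := ha
  obtain ⟨L, hL, hc⟩ := hc
  rcases cv_total (hK H hH) (hK L hL) with h | h
  · exact ⟨L, hL, (hK L hL).mem (h ha) hc h1 h2⟩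
  · exact ⟨H, hH, (hK H hH).mem ha (h hc) h1 h2⟩

theorem mem_sSup_cv {K : Set (Subgroup G)} (hK : ∀ H ∈ K, Cv H) (hne : K.Nonempty) {x : G} :
    x ∈ sSup K ↔ ∃ H ∈ K, x ∈ H := by
  have hd : DirectedOn (· ≤ ·) K := by
    intro a ha b hb
    rcases cv_total (hK a ha) (hK b hb) with h | h
    · exact ⟨b, hb, h, le_rfl⟩
    · exact ⟨a, ha, le_rfl, h⟩
  exact mem_sSup_of_directedOn hne hd

/-- The smallest convex subgroup containing `x`. -/
def ch (x : G) : Subgroup G := sInf {H | Cv H ∧ x ∈ H}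

/-- The largest convex subgroup not containing `x`. -/
def dh (x : G) : Subgroup G := sSup {H | Cv H ∧ x ∉ H}

theorem ch_le {x : G} {H : Subgroup G} (h : Cv H) (hx : x ∈ H) : ch x ≤ H := sInf_le ⟨h, hx⟩

theorem mem_ch (x : G) : x ∈ ch x := mem_sInf.2 fun _ h => h.2

theorem cv_ch (x : G) : Cv (ch x) := by
  refine cv_mk ?_
  intro a ha c hc b h1 h2
  rw [ch, mem_sInf] at *
  intro H hH
  exact hH.1.mem (ha H hH) (hc H hH) h1 h2

theorem dh_ne {x : G} (hx : x ≠ 1) : {H : Subgroup G | Cv H ∧ x ∉ H}.Nonempty :=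
  ⟨⊥, cv_bot, fun h => hx (Subgroup.mem_bot.1 h)⟩

theorem cv_dh {x : G} (hx : x ≠ 1) : Cv (dh x) := cv_sSup (fun _ h => h.1) (dh_ne hx)

theorem le_dh {x : G} {H : Subgroup G} (h : Cv H) (hx : x ∉ H) : H ≤ dh x := le_sSup ⟨h, hx⟩

theorem not_mem_dh {x : G} (hx : x ≠ 1) : x ∉ dh x := by
  intro h
  rw [dh, mem_sSup_cv (fun _ h => h.1) (dh_ne hx)] at h
  obtain ⟨H, hH, h⟩ := h
  exact hH.2 h

theorem dh_le_ch {x : G} (hx : x ≠ 1) : dh x ≤ ch x :=
  cv_lt (cv_dh hx) (cv_ch x) fun h => not_mem_dh hx (h (mem_ch x))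

omit [MulRightMono G] in
theorem zpow_sm {x : G} (hx : 1 < x) : StrictMono fun n : ℤ => x ^ n := by
  refine strictMono_int_of_lt_succ fun n => ?_
  rw [zpow_add_one]
  exact lt_mul_of_one_lt_right' _ hx

theorem mem_ch_iff {x : G} (hx : 1 < x) {y : G} :
    y ∈ ch x ↔ ∃ n : ℕ, (x ^ n)⁻¹ ≤ y ∧ y ≤ x ^ n := by
  have hone : ∀ n : ℕ, 1 ≤ x ^ n := fun n => one_le_pow_of_one_le' hx.le n
  constructor
  · let A : Subgroup G :=
      { carrier := {y | ∃ n : ℕ, (x ^ n)⁻¹ ≤ y ∧ y ≤ x ^ n}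
        mul_mem' := by
          rintro a b ⟨n, h1, h2⟩ ⟨m, h3, h4⟩
          refine ⟨n + m, ?_, ?_⟩
          · have e : (x ^ (n + m))⁻¹ = (x ^ n)⁻¹ * (x ^ m)⁻¹ := by
              rw [← mul_inv_rev, ← pow_add, add_comm]
            rw [e]
            exact mul_le_mul' h1 h3
          · rw [pow_add]
            exact mul_le_mul' h2 h4
        one_mem' := ⟨0, by simp, by simp⟩
        inv_mem' := by
          rintro a ⟨n, h1, h2⟩
          refine ⟨n, ?_, ?_⟩
          · rwa [inv_le_inv_iff]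
          · have := inv_le_inv_iff.2 h1
            rwa [inv_inv] at this }
    have hA : Cv A := by
      refine cv_mk ?_
      rintro a ⟨n, h1, h2⟩ c ⟨m, h3, h4⟩ b h5 h6
      refine ⟨n + m, ?_, ?_⟩
      · refine le_trans ?_ (h1.trans h5)
        rw [inv_le_inv_iff, pow_add]
        exact le_mul_of_one_le_right' (hone m)
      · refine (h6.trans h4).trans ?_
        rw [pow_add]
        exact le_mul_of_one_le_left' (hone n)
    intro h
    exact ch_le hA (show x ∈ A from ⟨1, by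
      rw [pow_one]
      exact ((Left.inv_lt_one_iff.2 hx).le.trans hx.le), by rw [pow_one]⟩) h
  · rintro ⟨n, h1, h2⟩
    exact (cv_ch x).mem (inv_mem (pow_mem (mem_ch x) n)) (pow_mem (mem_ch x) n) h1 h2

/-- The integral part of `y` with respect to `x`. -/
noncomputable def fl (x y : G) : ℤ := by
  classical
  exact if h : ∃ m : ℤ, x ^ m ≤ y ∧ y < x ^ (m + 1) then h.choose else 0

theorem fl_spec {x : G} (hx : 1 < x) {y : G} (hy : y ∈ ch x) :
    x ^ (fl x y) ≤ y ∧ y < x ^ (fl x y + 1) := by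
  have hex : ∃ m : ℤ, x ^ m ≤ y ∧ y < x ^ (m + 1) := by
    obtain ⟨n, h1, h2⟩ := (mem_ch_iff hx).1 hy
    obtain ⟨m, h3, h4⟩ := Int.exists_greatest_of_bdd (P := fun m : ℤ => x ^ m ≤ y)
      ⟨n, fun z hz => by
        have : x ^ z ≤ x ^ (n : ℤ) := by
          rw [zpow_natCast]
          exact hz.trans h2
        exact (zpow_sm hx).le_iff_le.1 this⟩
      ⟨-(n : ℤ), by
        rw [zpow_neg, zpow_natCast]
        exact h1⟩
    refine ⟨m, h3, ?_⟩
    by_contra hcon
    have := h4 (m + 1) (not_lt.1 hcon)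
    omega
  unfold fl
  rw [dif_pos hex]
  exact hex.choose_spec

theorem le_fl {x : G} (hx : 1 < x) {y : G} (hy : y ∈ ch x) {m : ℤ} (h : x ^ m ≤ y) :
    m ≤ fl x y := by
  have h1 := (zpow_sm hx).lt_iff_lt.1 (h.trans_lt (fl_spec hx hy).2)
  omega

theorem fl_lt {x : G} (hx : 1 < x) {y : G} (hy : y ∈ ch x) {m : ℤ} (h : y < x ^ m) :
    fl x y < m :=
  (zpow_sm hx).lt_iff_lt.1 ((fl_spec hx hy).1.trans_lt h)

theorem fl_mono {x : G} (hx : 1 < x) {y z : G} (hy : y ∈ ch x) (hz : z ∈ ch x) (h : y ≤ z) :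
    fl x y ≤ fl x z :=
  le_fl hx hz ((fl_spec hx hy).1.trans h)

theorem fl_mul {x : G} (hx : 1 < x) {y z : G} (hy : y ∈ ch x) (hz : z ∈ ch x) :
    fl x y + fl x z ≤ fl x (y * z) ∧ fl x (y * z) ≤ fl x y + fl x z + 1 := by
  obtain ⟨h1, h2⟩ := fl_spec hx hy
  obtain ⟨h3, h4⟩ := fl_spec hx hz
  constructor
  · refine le_fl hx (mul_mem hy hz) ?_
    rw [zpow_add]
    exact mul_le_mul' h1 h3
  · have h5 : y * z < x ^ (fl x y + 1 + (fl x z + 1)) := by
      rw [zpow_add x (fl x y + 1) (fl x z + 1)]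
      exact mul_lt_mul_of_lt_of_lt h2 h4
    have := fl_lt hx (mul_mem hy hz) h5
    omega

theorem pow_mul_le {y z : G} (h : y * z ≤ z * y) (n : ℕ) : y ^ n * z ^ n ≤ (y * z) ^ n := by
  induction n with
  | zero => simp
  | succ n ih =>
    have e1 : y ^ (n + 1) * z ^ (n + 1) = y * (y ^ n * z ^ n) * z := by
      rw [pow_succ' y, pow_succ z]
      simp only [mul_assoc]
    have e2 : y * (z * y) ^ n * z = (y * z) ^ (n + 1) := by
      have : ∀ k : ℕ, y * (z * y) ^ k = (y * z) ^ k * y := by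
        intro k
        induction k with
        | zero => simp
        | succ k ihk =>
          rw [pow_succ, ← mul_assoc, ihk, pow_succ]
          simp only [mul_assoc]
      rw [this n, pow_succ (y * z)]
      simp only [mul_assoc]
    rw [e1, ← e2]
    exact mul_le_mul' (mul_le_mul' le_rfl (ih.trans (pow_le_pow_left' h n))) le_rfl

theorem le_pow_mul {y z : G} (h : z * y ≤ y * z) (n : ℕ) : (y * z) ^ n ≤ y ^ n * z ^ n := by
  induction n with
  | zero => simp
  | succ n ih =>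
    have e1 : y ^ (n + 1) * z ^ (n + 1) = y * (y ^ n * z ^ n) * z := by
      rw [pow_succ' y, pow_succ z]
      simp only [mul_assoc]
    have e2 : y * (z * y) ^ n * z = (y * z) ^ (n + 1) := by
      have : ∀ k : ℕ, y * (z * y) ^ k = (y * z) ^ k * y := by
        intro k
        induction k with
        | zero => simp
        | succ k ihk =>
          rw [pow_succ, ← mul_assoc, ihk, pow_succ]
          simp only [mul_assoc]
      rw [this n, pow_succ (y * z)]
      simp only [mul_assoc]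
    rw [e1, ← e2]
    exact mul_le_mul' (mul_le_mul' le_rfl ((pow_le_pow_left' h n).trans ih)) le_rfl

theorem fl_pow_mul {x : G} (hx : 1 < x) {y z : G} (hy : y ∈ ch x) (hz : z ∈ ch x) (n : ℕ) :
    fl x (y ^ n) + fl x (z ^ n) ≤ fl x ((y * z) ^ n) ∧
      fl x ((y * z) ^ n) ≤ fl x (y ^ n) + fl x (z ^ n) + 1 := by
  have a1 := fl_mul hx (pow_mem hy n) (pow_mem hz n)
  have a2 := fl_mul hx (pow_mem hz n) (pow_mem hy n)
  have m0 := pow_mem (mul_mem hy hz) n
  have m1 := mul_mem (pow_mem hy n) (pow_mem hz n)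
  have m2 := mul_mem (pow_mem hz n) (pow_mem hy n)
  rcases le_total (y * z) (z * y) with h | h
  · have h1 := fl_mono hx m1 m0 (pow_mul_le h n)
    have h2 : (y * z) ^ n ≤ z ^ n * y ^ n := (pow_le_pow_left' h n).trans (le_pow_mul h n)
    have h3 := fl_mono hx m0 m2 h2
    exact ⟨by omega, by omega⟩
  · have h1 : z ^ n * y ^ n ≤ (y * z) ^ n := (pow_mul_le h n).trans (pow_le_pow_left' h n)
    have h2 := fl_mono hx m2 m0 h1
    have h3 := fl_mono hx m0 m1 (le_pow_mul h n)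
    exact ⟨by omega, by omega⟩

/-- **The homomorphism of Hoelder.** -/
noncomputable def ph (x y : G) : ℝ :=
  sInf ((fun n : ℕ => ((fl x (y ^ n) : ℝ) + 1) / n) '' Set.Ici 1)

theorem ph_tendsto {x : G} (hx : 1 < x) {y : G} (hy : y ∈ ch x) :
    Tendsto (fun n : ℕ => (fl x (y ^ n) : ℝ) / n) atTop (𝓝 (ph x y)) := by
  have hsub : Subadditive (fun n : ℕ => (fl x (y ^ n) : ℝ) + 1) := by
    intro m n
    have h := (fl_mul hx (pow_mem hy m) (pow_mem hy n)).2
    rw [← pow_add] at h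
    have h' : (fl x (y ^ (m + n)) : ℝ) ≤ fl x (y ^ m) + fl x (y ^ n) + 1 := by exact_mod_cast h
    show (fl x (y ^ (m + n)) : ℝ) + 1 ≤ (fl x (y ^ m) + 1) + (fl x (y ^ n) + 1)
    linarith
  have hlow : ∀ n : ℕ, (n : ℤ) * fl x y ≤ fl x (y ^ n) := by
    intro n
    refine le_fl hx (pow_mem hy n) ?_
    rw [mul_comm, zpow_mul, zpow_natCast]
    exact pow_le_pow_left' (fl_spec hx hy).1 n
  have hb : BddBelow (Set.range fun n : ℕ => ((fl x (y ^ n) : ℝ) + 1) / n) := by
    refine ⟨min (fl x y : ℝ) 0, ?_⟩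
    rintro _ ⟨n, rfl⟩
    rcases Nat.eq_zero_or_pos n with h | h
    · subst h
      simp
    · refine (min_le_left _ _).trans ?_
      have hn : (0 : ℝ) < n := by exact_mod_cast h
      show (fl x y : ℝ) ≤ ((fl x (y ^ n) : ℝ) + 1) / n
      rw [le_div_iff₀ hn]
      have := hlow n
      have h2 : (n : ℝ) * fl x y ≤ fl x (y ^ n) := by exact_mod_cast this
      linarith
  have hlim : hsub.lim = ph x y := by
    unfold Subadditive.lim ph
    rfl
  have h1 : Tendsto (fun n : ℕ => ((fl x (y ^ n) : ℝ) + 1) / n) atTop (𝓝 (ph x y)) := by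
    rw [← hlim]
    exact hsub.tendsto_lim hb
  have h2 : Tendsto (fun n : ℕ => (1 : ℝ) / n) atTop (𝓝 0) := tendsto_one_div_atTop_nhds_zero_nat
  have h3 := h1.sub h2
  rw [sub_zero] at h3
  refine h3.congr fun n => ?_
  rw [← sub_div]
  ring

theorem ph_mul {x : G} (hx : 1 < x) {y z : G} (hy : y ∈ ch x) (hz : z ∈ ch x) :
    ph x (y * z) = ph x y + ph x z := by
  have h1 := ph_tendsto hx (mul_mem hy hz)
  have h2 := (ph_tendsto hx hy).add (ph_tendsto hx hz)
  have h3 : Tendsto (fun n : ℕ => (1 : ℝ) / n) atTop (𝓝 0) := tendsto_one_div_atTop_nhds_zero_nat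
  have h4 := h2.add h3
  rw [add_zero] at h4
  refine le_antisymm ?_ ?_
  · refine le_of_tendsto_of_tendsto' h1 h4 fun n => ?_
    have h := (fl_pow_mul hx hy hz n).2
    have h' : (fl x ((y * z) ^ n) : ℝ) ≤ fl x (y ^ n) + fl x (z ^ n) + 1 := by exact_mod_cast h
    rw [← add_div, ← add_div]
    exact div_le_div_of_nonneg_right h' (Nat.cast_nonneg n)
  · refine le_of_tendsto_of_tendsto' h2 h1 fun n => ?_
    have h := (fl_pow_mul hx hy hz n).1
    have h' : (fl x (y ^ n) : ℝ) + fl x (z ^ n) ≤ fl x ((y * z) ^ n) := by exact_mod_cast h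
    rw [← add_div]
    exact div_le_div_of_nonneg_right h' (Nat.cast_nonneg n)

theorem ph_mono {x : G} (hx : 1 < x) {y z : G} (hy : y ∈ ch x) (hz : z ∈ ch x) (h : y ≤ z) :
    ph x y ≤ ph x z := by
  refine le_of_tendsto_of_tendsto' (ph_tendsto hx hy) (ph_tendsto hx hz) fun n => ?_
  have h1 := fl_mono hx (pow_mem hy n) (pow_mem hz n) (pow_le_pow_left' h n)
  exact div_le_div_of_nonneg_right (by exact_mod_cast h1) (Nat.cast_nonneg n)

theorem ph_one {x : G} (hx : 1 < x) : ph x 1 = 0 := by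
  have h := ph_mul hx (one_mem (ch x)) (one_mem (ch x))
  rw [mul_one] at h
  linarith

theorem ph_inv {x : G} (hx : 1 < x) {y : G} (hy : y ∈ ch x) : ph x y⁻¹ = - ph x y := by
  have h := ph_mul hx hy (inv_mem hy)
  rw [mul_inv_cancel, ph_one hx] at h
  linarith

theorem ph_pow {x : G} (hx : 1 < x) {y : G} (hy : y ∈ ch x) (n : ℕ) :
    ph x (y ^ n) = n * ph x y := by
  induction n with
  | zero => simp [ph_one hx]
  | succ n ih =>
    rw [pow_succ, ph_mul hx (pow_mem hy n) hy, ih]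
    push_cast
    ring

theorem ph_zpow {x : G} (hx : 1 < x) {y : G} (hy : y ∈ ch x) (n : ℤ) :
    ph x (y ^ n) = n * ph x y := by
  rcases Int.eq_nat_or_neg n with ⟨k, rfl | rfl⟩
  · rw [zpow_natCast, ph_pow hx hy]
    simp
  · rw [zpow_neg, zpow_natCast, ph_inv hx (pow_mem hy k), ph_pow hx hy]
    simp

theorem fl_self {x : G} (hx : 1 < x) (n : ℕ) : fl x (x ^ n) = n := by
  have hm := pow_mem (mem_ch x) n
  refine le_antisymm ?_ (le_fl hx hm (by rw [zpow_natCast]))
  have h := fl_lt hx hm (m := n + 1) (by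
    have := zpow_sm hx (show (n : ℤ) < n + 1 by omega)
    simpa using this)
  omega

theorem ph_self {x : G} (hx : 1 < x) : ph x x = 1 := by
  refine tendsto_nhds_unique (ph_tendsto hx (mem_ch x)) ?_
  refine (tendsto_const_nhds (x := (1 : ℝ))).congr' ?_
  filter_upwards [eventually_gt_atTop 0] with n hn
  rw [fl_self hx]
  have : (n : ℝ) ≠ 0 := by exact_mod_cast hn.ne'
  simp [this]

/-- The kernel of `ph x` is the largest convex subgroup not containing `x`. -/
theorem ph_eq_zero {x : G} (hx : 1 < x) {y : G} (hy : y ∈ ch x) : ph x y = 0 ↔ y ∈ dh x := by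
  have hx1 : x ≠ 1 := hx.ne'
  -- it is enough to consider `1 ≤ y`
  have key : ∀ y ∈ ch x, 1 ≤ y → (ph x y = 0 ↔ y ∈ dh x) := by
    intro y hy hy1
    constructor
    · intro h
      by_contra hcon
      have hc : x ∈ ch y := by
        by_contra h2
        exact hcon ((le_dh (cv_ch y) h2) (mem_ch y))
      have hy2 : 1 < y := lt_of_le_of_ne hy1 fun h3 => hcon (h3 ▸ one_mem _)
      obtain ⟨n, -, h3⟩ := (mem_ch_iff hy2).1 hc
      have h4 := ph_mono hx (mem_ch x) (pow_mem hy n) h3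
      rw [ph_self hx, ph_pow hx hy, h, mul_zero] at h4
      exact absurd h4 (by norm_num)
    · intro h
      have h0 : 0 ≤ ph x y := by
        have := ph_mono hx (one_mem _) hy hy1
        rwa [ph_one hx] at this
      refine le_antisymm ?_ h0
      by_contra hcon
      push Not at hcon
      obtain ⟨n, hn⟩ := exists_nat_gt (1 / ph x y)
      rw [div_lt_iff₀ hcon] at hn
      have h1 : x ≤ y ^ n := by
        by_contra h2
        push Not at h2
        have h3 := ph_mono hx (pow_mem hy n) (mem_ch x) h2.le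
        rw [ph_pow hx hy, ph_self hx] at h3
        linarith
      exact not_mem_dh hx1 ((cv_dh hx1).mem (one_mem _) (pow_mem h n) hx.le h1)
  rcases le_total 1 y with h | h
  · exact key y hy h
  · have h1 := key y⁻¹ (inv_mem hy) (one_le_inv'.2 h)
    rw [ph_inv hx hy, neg_eq_zero, inv_mem_iff] at h1
    exact h1

/-- Conjugation multiplies `ph` with a constant. -/
theorem ph_conj {x : G} (hx : 1 < x) {g : G} (hg : ∀ z ∈ ch x, g * z * g⁻¹ ∈ ch x) {y : G}
    (hy : y ∈ ch x) : ph x (g * y * g⁻¹) = ph x (g * x * g⁻¹) * ph x y := by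
  have hle : ∀ {a b : G}, a ≤ b → g * a * g⁻¹ ≤ g * b * g⁻¹ := fun h =>
    mul_le_mul' (mul_le_mul' le_rfl h) le_rfl
  have hxc := hg x (mem_ch x)
  have hyc := hg y hy
  have h1 := (ph_tendsto hx hy).mul_const (ph x (g * x * g⁻¹))
  have h3 : Tendsto (fun n : ℕ => (1 : ℝ) / n) atTop (𝓝 0) := tendsto_one_div_atTop_nhds_zero_nat
  have h2 := h1.add (h3.mul_const (ph x (g * x * g⁻¹)))
  rw [zero_mul, add_zero] at h2
  rw [mul_comm]
  refine le_antisymm ?_ ?_
  · refine ge_of_tendsto h2 ?_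
    filter_upwards [eventually_gt_atTop 0] with n hn
    have hn' : (0 : ℝ) < n := by exact_mod_cast hn
    have h4 := (fl_spec hx (pow_mem hy n)).2.le
    have h5 := ph_mono hx (by rw [← conj_pow]; exact pow_mem hyc n)
      (by rw [← conj_zpow]; exact zpow_mem hxc _) (hle h4)
    rw [← conj_pow, ← conj_zpow, ph_pow hx hyc, ph_zpow hx hxc] at h5
    rw [← add_mul, ← add_div, div_mul_eq_mul_div, le_div_iff₀ hn']
    push_cast at h5
    linarith
  · refine le_of_tendsto h1 ?_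
    filter_upwards [eventually_gt_atTop 0] with n hn
    have hn' : (0 : ℝ) < n := by exact_mod_cast hn
    have h4 := (fl_spec hx (pow_mem hy n)).1
    have h5 := ph_mono hx (by rw [← conj_zpow]; exact zpow_mem hxc _)
      (by rw [← conj_pow]; exact pow_mem hyc n) (hle h4)
    rw [← conj_pow, ← conj_zpow, ph_pow hx hyc, ph_zpow hx hxc] at h5
    rw [div_mul_eq_mul_div, div_le_iff₀ hn']
    linarith

end Pool.Agent.H8.ORD
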