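import Pool.Agent.H8.ORD.Hld

/-!
# Jumps of the chain of convex subgroups

`NS G r`: no finitely generated subgroup of `G` maps onto `ℤ ^ (r + 1)`. `NI E F`: the convex
subgroups between `E` and `F` are normalized by `F`. In this case the commutator subgroup of `F`
acts trivially on the jumps between `E` and `F` (`jump`), and its `2 r`-th term of the lower
central series is contained in `E` (`lcs_le`).
-/

set_option autoImplicit false

namespace Pool.Agent.H8.ORD

open Subgroup
open scoped commutatorElement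

/-- No finitely generated subgroup maps onto `ℤ ^ (r + 1)`. -/
def NS (G : Type*) [Group G] (r : ℕ) : Prop :=
  ∀ B : Subgroup G, B.FG → ¬ ∃ f : B →* Multiplicative (Fin (r + 1) → ℤ), Function.Surjective f

section Groups

variable {G : Type*} [Group G]

theorem ofFn_prod (H : Subgroup G) : ∀ (n : ℕ) (w : Fin n → G) (i : Fin n),
    (∀ j, j < i → w j = 1) → (∀ j, i < j → w j ∈ H) → ∃ h ∈ H, (List.ofFn w).prod = w i * h
  | 0 => fun _ i => i.elim0
  | n + 1 => by
    intro w i h1 h2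
    rw [List.ofFn_succ, List.prod_cons]
    refine Fin.cases (motive := fun i => (∀ j, j < i → w j = 1) → (∀ j, i < j → w j ∈ H) →
      ∃ h ∈ H, w 0 * (List.ofFn fun i => w i.succ).prod = w i * h) ?_ ?_ i h1 h2
    · intro _ h2
      refine ⟨_, H.list_prod_mem ?_, rfl⟩
      intro x hx
      rw [List.mem_ofFn] at hx
      obtain ⟨j, rfl⟩ := hx
      exact h2 _ (Fin.succ_pos j)
    · intro i h1 h2
      obtain ⟨h, hh, e⟩ := ofFn_prod H n (fun j => w j.succ) i
        (fun j hj => h1 _ (Fin.succ_lt_succ_iff.2 hj))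
        (fun j hj => h2 _ (Fin.succ_lt_succ_iff.2 hj))
      refine ⟨h, hh, ?_⟩
      rw [e, h1 0 (Fin.succ_pos i), one_mul]

theorem WC_sub {K : Subgroup G} {S : Set G} :
    ∀ n, ∀ z ∈ WC {k : K | (k : G) ∈ S} n, (z : G) ∈ WC S n
  | 0 => fun z hz => hz
  | n + 1 => by
    rintro _ ⟨c, hc, s, hs, rfl⟩
    exact ⟨c, WC_sub n c hc, s, hs, rfl⟩

theorem WC_lift {K : Subgroup G} {S : Set G} (h : S ⊆ K) :
    ∀ n, ∀ z ∈ WC S n, ∃ z' ∈ WC {k : K | (k : G) ∈ S} n, (z' : G) = z
  | 0 => fun z hz => ⟨⟨z, h hz⟩, hz, rfl⟩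
  | n + 1 => by
    rintro _ ⟨c, hc, s, hs, rfl⟩
    obtain ⟨c', hc', e⟩ := WC_lift h n c hc
    exact ⟨⁅c', ⟨s, h hs⟩⁆, ⟨c', hc', ⟨s, h hs⟩, hs, rfl⟩, by rw [← e]; rfl⟩

theorem WC_le_lcs {S : Set G} :
    ∀ n, WC S n ⊆ (Subgroup.lowerCentralSeries (⊤ : Subgroup G) n : Set G)
  | 0 => fun z _ => mem_top z
  | n + 1 => by
    rintro _ ⟨c, hc, s, hs, rfl⟩
    exact commutator_mem_commutator (WC_le_lcs n hc) (mem_top s)

theorem closure_sub {S : Set G} : closure {k : closure S | (k : G) ∈ S} = ⊤ :=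
  closure_closure_coe_preimage

/-- The set of generators as a map. -/
theorem closure_range {n : ℕ} (k : Fin n → G) (b : Fin n → closure (Set.range k))
    (h : ∀ i, (b i : G) = k i) : closure (Set.range b) = ⊤ := by
  have e : Set.range b = {x : closure (Set.range k) | (x : G) ∈ Set.range k} := by
    ext x
    constructor
    · rintro ⟨i, rfl⟩
      exact ⟨i, (h i).symm⟩
    · rintro ⟨i, hi⟩
      exact ⟨i, Subtype.ext ((h i).trans hi)⟩
  rw [e]
  exact closure_sub

end Groups

variable {G : Type*} [Group G] [LinearOrder G] [MulLeftMono G] [MulRightMono G]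

/-- `r + 1` elements which commute modulo `M` and have different classes modulo `M`. -/
theorem indep_absurd {r : ℕ} (hr : NS G r) (k : Fin (r + 1) → G) (E E' : Fin (r + 1) → Subgroup G)
    (hE : ∀ i, Cv (E i)) (h1 : ∀ i, k i ∉ E i) (h2 : ∀ i j, i < j → k j ∈ E i)
    (h3 : ∀ i, k i ∈ E' i) (h4 : ∀ i, E i ≤ E' i) (M : Subgroup G)
    (h5 : ∀ i, M ⊓ E' i ≤ E i)
    (h6 : ∀ x ∈ closure (Set.range k), ∀ y ∈ closure (Set.range k), ⁅x, y⁆ ∈ M) : False := by
  have hk : ∀ i, k i ∈ closure (Set.range k) := fun i => subset_closure ⟨i, rfl⟩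
  refine hr (closure (Set.range k)) ((fg_iff _).2 ⟨Set.range k, rfl, Set.finite_range k⟩) ?_
  let b : Fin (r + 1) → closure (Set.range k) := fun i => ⟨k i, hk i⟩
  refine exists_surj b (closure_range k b fun _ => rfl) (M.subgroupOf _) ?_ ?_
  · intro x y
    rw [mem_subgroupOf]
    exact h6 x x.2 y y.2
  · intro e he
    by_contra hcon
    have hex : ∃ i, e i ≠ 0 := Function.ne_iff.1 hcon
    obtain ⟨i, hi, hmin⟩ : ∃ i, e i ≠ 0 ∧ ∀ j, j < i → e j = 0 := by
      obtain ⟨i, hi, hm⟩ := WellFounded.has_min (wellFounded_lt (α := Fin (r + 1)))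
        {i | e i ≠ 0} hex
      exact ⟨i, hi, fun j hj => not_not.1 fun h => hm j h hj⟩
    rw [mem_subgroupOf] at he
    have e1 : (((List.ofFn fun i => b i ^ e i).prod : closure (Set.range k)) : G)
        = (List.ofFn fun i => k i ^ e i).prod := by
      rw [← Subgroup.coe_subtype, map_list_prod, List.map_ofFn]
      rfl
    obtain ⟨h, hh, e2⟩ := ofFn_prod (E i) (r + 1) (fun j => k j ^ e j) i
      (fun j hj => by simp [hmin j hj]) (fun j hj => zpow_mem (h2 i j hj) _)
    have h7 : (k i) ^ e i * h ∈ E i := h5 i ⟨by rw [← e2, ← e1]; exact he,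
      mul_mem (zpow_mem (h3 i) _) (h4 i hh)⟩
    have h8 : k i ^ e i ∈ E i := by
      have := mul_mem h7 (inv_mem hh)
      simpa using this
    exact h1 i ((hE i).of_pow hi h8)

/-- `F` normalizes the convex subgroups between `E` and `F`. -/
def NI (E F : Subgroup G) : Prop :=
  ∀ C : Subgroup G, Cv C → E ≤ C → C ≤ F → ∀ f ∈ F, ∀ c ∈ C, f * c * f⁻¹ ∈ C

theorem jump_pos {E F : Subgroup G} (hE : Cv E) (hF : Cv F) (h : NI E F) {x : G} (hx : 1 < x)
    (hxF : x ∈ F) (hxE : x ∉ E) {n : G} (hn : n ∈ ⁅F, F⁆) {y : G} (hy : y ∈ ch x) :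
    ⁅n, y⁆ ∈ dh x := by
  have hch : ch x ≤ F := ch_le hF hxF
  have hEc : E ≤ ch x := (le_dh hE hxE).trans (dh_le_ch hx.ne')
  have hst : ∀ f ∈ F, ∀ c ∈ ch x, f * c * f⁻¹ ∈ ch x := h (ch x) (cv_ch x) hEc hch
  have hmul : ∀ f ∈ F, ∀ g ∈ F,
      ph x (f * g * x * (f * g)⁻¹) = ph x (f * x * f⁻¹) * ph x (g * x * g⁻¹) := by
    intro f hf g hg
    have e : f * g * x * (f * g)⁻¹ = f * (g * x * g⁻¹) * f⁻¹ := by group
    rw [e, ph_conj hx (hst f hf) (hst g hg x (mem_ch x))]
  have hone : ph x (1 * x * 1⁻¹) = 1 := by simp [ph_self hx]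
  have hinv : ∀ f ∈ F, ph x (f * x * f⁻¹) * ph x (f⁻¹ * x * (f⁻¹)⁻¹) = 1 := by
    intro f hf
    rw [← hmul f hf f⁻¹ (inv_mem hf), mul_inv_cancel]
    exact hone
  let T : Subgroup G :=
    { carrier := {f | f ∈ F ∧ ph x (f * x * f⁻¹) = 1}
      mul_mem' := by
        rintro f g ⟨hf, h1⟩ ⟨hg, h2⟩
        refine ⟨mul_mem hf hg, ?_⟩
        rw [hmul f hf g hg, h1, h2, one_mul]
      one_mem' := ⟨one_mem F, hone⟩
      inv_mem' := by
        rintro f ⟨hf, h1⟩
        refine ⟨inv_mem hf, ?_⟩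
        have := hinv f hf
        rwa [h1, one_mul] at this }
  have hT : ⁅F, F⁆ ≤ T := by
    rw [commutator_le]
    intro f hf g hg
    refine ⟨?_, ?_⟩
    · rw [commutatorElement_def]
      exact mul_mem (mul_mem (mul_mem hf hg) (inv_mem hf)) (inv_mem hg)
    · rw [commutatorElement_def, hmul _ (mul_mem (mul_mem hf hg) (inv_mem hf)) _ (inv_mem hg),
        hmul _ (mul_mem hf hg) _ (inv_mem hf), hmul f hf g hg]
      have h1 := hinv f hf
      have h2 := hinv g hg
      calc ph x (f * x * f⁻¹) * ph x (g * x * g⁻¹) * ph x (f⁻¹ * x * f⁻¹⁻¹)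
            * ph x (g⁻¹ * x * g⁻¹⁻¹)
          = (ph x (f * x * f⁻¹) * ph x (f⁻¹ * x * f⁻¹⁻¹))
            * (ph x (g * x * g⁻¹) * ph x (g⁻¹ * x * g⁻¹⁻¹)) := by ring
        _ = 1 := by rw [h1, h2, one_mul]
  obtain ⟨hnF, hn1⟩ := hT hn
  have h1 : ph x (n * y * n⁻¹) = ph x y := by rw [ph_conj hx (hst n hnF) hy, hn1, one_mul]
  have h2 : n * y * n⁻¹ ∈ ch x := hst n hnF y hy
  rw [commutatorElement_def, ← ph_eq_zero hx (mul_mem h2 (inv_mem hy)),
    ph_mul hx h2 (inv_mem hy), ph_inv hx hy, h1]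
  ring

omit [MulLeftMono G] [MulRightMono G] in
theorem ch_congr {x y : G} (h : ∀ H : Subgroup G, x ∈ H ↔ y ∈ H) : ch x = ch y := by
  unfold ch
  simp only [h]

omit [MulLeftMono G] [MulRightMono G] in
theorem dh_congr {x y : G} (h : ∀ H : Subgroup G, x ∈ H ↔ y ∈ H) : dh x = dh y := by
  unfold dh
  simp only [h]

/-- **The commutator subgroup acts trivially on the jumps.** -/
theorem jump {E F : Subgroup G} (hE : Cv E) (hF : Cv F) (h : NI E F) {x : G}
    (hxF : x ∈ F) (hxE : x ∉ E) {n : G} (hn : n ∈ ⁅F, F⁆) {y : G} (hy : y ∈ ch x) :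
    ⁅n, y⁆ ∈ dh x := by
  obtain ⟨u, hu, h1⟩ := exists_pos x
  rw [← ch_congr h1] at hy
  rw [← dh_congr h1]
  rw [← h1] at hxF hxE
  refine jump_pos hE hF h (lt_of_le_of_ne hu ?_) hxF hxE hn hy
  rintro rfl
  exact hxE (one_mem E)

theorem comm_le_self (F : Subgroup G) : ⁅F, F⁆ ≤ F := by
  rw [commutator_le]
  intro f hf g hg
  rw [commutatorElement_def]
  exact mul_mem (mul_mem (mul_mem hf hg) (inv_mem hf)) (inv_mem hg)

/-- The case of finitely many elements. -/
theorem wc_fin {r : ℕ} (hr : NS G r) {E F : Subgroup G} (hE : Cv E) (hF : Cv F) (h : NI E F)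
    {S : Set G} (hS : S.Finite) (hSN : S ⊆ (⁅F, F⁆ : Subgroup G)) :
    WC S (2 * r - 1) ⊆ E := by
  have hNF : ⁅F, F⁆ ≤ F := comm_le_self F
  by_contra hcon
  have hnE : ∀ {y : G}, y ∉ E → y ≠ 1 := by
    rintro y hy rfl
    exact hy (one_mem E)
  obtain ⟨y, hyW, hyE, hmax⟩ : ∃ y ∈ WC S (2 * r - 1), y ∉ E ∧
      ∀ z ∈ WC S (2 * r - 1), z ∈ ch y := by
    rw [Set.not_subset] at hcon
    have hfin : (WC S (2 * r - 1) \ (E : Set G)).Finite := (WC_finite hS _).sdiff
    obtain ⟨y, hy, hm⟩ := hfin.exists_maximalFor ch _ (by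
      obtain ⟨a, ha, hb⟩ := hcon
      exact ⟨a, ha, hb⟩)
    refine ⟨y, hy.1, hy.2, fun z hz => ?_⟩
    by_cases hzE : z ∈ E
    · exact ((le_dh hE hy.2).trans (dh_le_ch (hnE hy.2))) hzE
    · rcases cv_total (cv_ch z) (cv_ch y) with h1 | h1
      · exact h1 (mem_ch z)
      · exact hm ⟨hz, hzE⟩ h1 (mem_ch z)
  have hKN : closure S ≤ ⁅F, F⁆ := (closure_le _).2 hSN
  obtain ⟨y', hy', rfl⟩ := WC_lift (K := closure S) subset_closure _ y hyW
  have hyF : (y' : G) ∈ F := hNF (hKN y'.2)
  have hyne : (y' : G) ≠ 1 := hnE hyE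
  have hchF : ch (y' : G) ≤ F := ch_le hF hyF
  have hEd : E ≤ dh (y' : G) := le_dh hE hyE
  have hdc : dh (y' : G) ≤ ch (y' : G) := dh_le_ch hyne
  have nC : ((ch (y' : G)).subgroupOf (closure S)).Normal :=
    ⟨fun x hx g => h _ (cv_ch _) (hEd.trans hdc) hchF g (hNF (hKN g.2)) x hx⟩
  have nD : ((dh (y' : G)).subgroupOf (closure S)).Normal :=
    ⟨fun x hx g => h _ (cv_dh hyne) hEd (hdc.trans hchF) g (hNF (hKN g.2)) x hx⟩
  have h1 : (⊤ : Subgroup (closure S)).lowerCentralSeries (2 * r - 1)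
      ≤ (ch (y' : G)).subgroupOf (closure S) :=
    gen_le closure_sub _ _ fun z hz => hmax _ (WC_sub _ z hz)
  have h2 : (⊤ : Subgroup (closure S)).lowerCentralSeries (2 * r - 1 + 1)
      ≤ (dh (y' : G)).subgroupOf (closure S) := by
    rw [Subgroup.lowerCentralSeries_succ, commutator_le]
    intro p hp q _
    have h3 := jump hE hF h hyF hyE (hKN q.2) (h1 hp)
    have h4 := inv_mem h3
    rw [commutatorElement_inv] at h4
    exact h4
  generalize hD : (dh (y' : G)).subgroupOf (closure S) = D at nD h2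
  have hQ : ∀ n, (⊤ : Subgroup (closure S ⧸ D)).lowerCentralSeries n
      = ((⊤ : Subgroup (closure S)).lowerCentralSeries n).map (QuotientGroup.mk' D) := by
    intro n
    rw [map_lowerCentralSeries, map_top_of_surjective _ (QuotientGroup.mk'_surjective D)]
  have nilQ : Group.IsNilpotent (closure S ⧸ D) :=
    Subgroup.nilpotent_iff_lowerCentralSeries.2 ⟨2 * r - 1 + 1, by
      rw [hQ, Subgroup.map_eq_bot_iff, QuotientGroup.ker_mk']
      exact h2⟩
  have hmemD : ∀ z : closure S, z ∈ D ↔ (z : G) ∈ dh (y' : G) := by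
    intro z
    rw [← hD, mem_subgroupOf]
  have h3 : (⊤ : Subgroup (closure S ⧸ D)).lowerCentralSeries (2 * r - 1) = ⊥ := by
    refine nil_class r ?_
    intro A hA hAc
    -- a descending chain of elements of `A`
    have chain : ∀ (n : ℕ) (k : closure S), (QuotientGroup.mk' D k) ∈ A →
        QuotientGroup.mk' D k ∉ Subgroup.upperCentralSeries (closure S ⧸ D) n →
        ∃ c : Fin (n + 1) → closure S, (∀ i, QuotientGroup.mk' D (c i) ∈ A) ∧
          (∀ i, (c i : G) ∉ dh (y' : G)) ∧ (∀ i j, i < j → (c j : G) ∈ dh (c i : G)) ∧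
          ∀ i, (c i : G) ∈ ch (k : G) := by
      intro n
      induction n with
      | zero =>
        intro k hk hk0
        refine ⟨fun _ => k, fun _ => hk, fun _ hcd => hk0 ?_, fun i j hij => ?_,
          fun _ => mem_ch _⟩
        · rw [Subgroup.upperCentralSeries_zero, Subgroup.mem_bot, QuotientGroup.mk'_apply,
            QuotientGroup.eq_one_iff]
          exact (hmemD k).2 hcd
        · exact absurd hij (by omega)
      | succ n ih =>
        intro k hk hkn
        have hkD : (k : G) ∉ dh (y' : G) := by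
          intro hcd
          apply hkn
          have : QuotientGroup.mk' D k = 1 := by
            rw [QuotientGroup.mk'_apply, QuotientGroup.eq_one_iff]
            exact (hmemD k).2 hcd
          rw [this]
          exact one_mem _
        rw [Subgroup.mem_upperCentralSeries_succ_iff] at hkn
        push Not at hkn
        obtain ⟨g, hg⟩ := hkn
        obtain ⟨g, rfl⟩ := QuotientGroup.mk'_surjective D g
        have hk'A : QuotientGroup.mk' D ⁅k, g⁆ ∈ A := by
          have e : QuotientGroup.mk' D ⁅k, g⁆ = QuotientGroup.mk' D k *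
              (QuotientGroup.mk' D g * (QuotientGroup.mk' D k)⁻¹ * (QuotientGroup.mk' D g)⁻¹) := by
            rw [map_commutatorElement, commutatorElement_def]
            group
          rw [e]
          exact mul_mem hk (hA.conj_mem _ (inv_mem hk) _)
        obtain ⟨c, hc1, hc2, hc3, hc4⟩ := ih ⁅k, g⁆ hk'A (by
          rw [map_commutatorElement, commutatorElement_def]
          exact hg)
        have hkE : (k : G) ∉ E := fun h' => hkD (hEd h')
        have hkF : (k : G) ∈ F := hNF (hKN k.2)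
        have hk' : ((⁅k, g⁆ : closure S) : G) ∈ dh (k : G) := by
          have h3 := jump hE hF h hkF hkE (hKN g.2) (mem_ch _)
          have h4 := inv_mem h3
          rw [commutatorElement_inv] at h4
          exact h4
        have hle : ch ((⁅k, g⁆ : closure S) : G) ≤ dh (k : G) := ch_le (cv_dh (hnE hkE)) hk'
        refine ⟨Fin.cons k c, ?_, ?_, ?_, ?_⟩
        · intro i
          refine Fin.cases ?_ (fun i => ?_) i
          · simpa using hk
          · simpa using hc1 i
        · intro i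
          refine Fin.cases ?_ (fun i => ?_) i
          · simpa using hkD
          · simpa using hc2 i
        · intro i j
          refine Fin.cases ?_ (fun i => ?_) i
          · refine Fin.cases ?_ (fun j => ?_) j
            · intro h; exact absurd h (lt_irrefl _)
            · intro _
              simpa using hle (hc4 j)
          · refine Fin.cases ?_ (fun j => ?_) j
            · intro h; exact absurd h (by simp)
            · intro h
              simpa using hc3 i j (Fin.succ_lt_succ_iff.1 h)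
        · intro i
          refine Fin.cases ?_ (fun i => ?_) i
          · simpa using mem_ch _
          · simpa using (dh_le_ch (hnE hkE)) (hle (hc4 i))
    by_contra hnot
    rw [SetLike.not_le_iff_exists] at hnot
    obtain ⟨a, haA, han⟩ := hnot
    obtain ⟨a, rfl⟩ := QuotientGroup.mk'_surjective D a
    obtain ⟨c, hc1, hc2, hc3, -⟩ := chain r a haA han
    have hcne : ∀ i, (c i : G) ≠ 1 := fun i h' => hc2 i (h' ▸ one_mem _)
    refine indep_absurd hr (fun i => (c i : G)) (fun i => dh (c i : G)) (fun i => ch (c i : G))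
      (fun i => cv_dh (hcne i)) (fun i => not_mem_dh (hcne i)) hc3 (fun i => mem_ch _)
      (fun i => dh_le_ch (hcne i)) (dh (y' : G))
      (fun i => inf_le_left.trans (le_dh (cv_dh hyne) (hc2 i))) ?_
    have hcl : closure (Set.range fun i => (c i : G)) ≤
        (A.comap (QuotientGroup.mk' D)).map (closure S).subtype := by
      rw [closure_le]
      rintro _ ⟨i, rfl⟩
      exact ⟨c i, hc1 i, rfl⟩
    intro u hu v hv
    obtain ⟨a, ha, rfl⟩ := hcl hu
    obtain ⟨b, hb, rfl⟩ := hcl hv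
    have h5 : QuotientGroup.mk' D ⁅a, b⁆ = 1 := by
      rw [map_commutatorElement]
      exact commutatorElement_eq_one_iff_mul_comm.2 (hAc _ ha _ hb)
    exact (hmemD _).1 ((QuotientGroup.eq_one_iff _).1 h5)
  rw [hQ, Subgroup.map_eq_bot_iff, QuotientGroup.ker_mk'] at h3
  exact not_mem_dh hyne ((hmemD _).1 (h3 (WC_le_lcs _ hy')))

/-- **The commutator subgroup is nilpotent modulo `E`**, of class at most `2 r - 1`. -/
theorem lcs_le {r : ℕ} (hr : NS G r) {E F : Subgroup G} (hE : Cv E) (hF : Cv F) (hEF : E ≤ F)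
    (h : NI E F) : (⁅F, F⁆ : Subgroup G).lowerCentralSeries (2 * r - 1) ≤ E := by
  have hNF : ⁅F, F⁆ ≤ F := comm_le_self F
  have nE : (E.subgroupOf ⁅F, F⁆).Normal :=
    ⟨fun x hx g => h _ hE le_rfl hEF g (hNF g.2) x hx⟩
  have h1 : (⊤ : Subgroup (⁅F, F⁆ : Subgroup G)).lowerCentralSeries (2 * r - 1)
      ≤ E.subgroupOf ⁅F, F⁆ := by
    refine gen_le (S := Set.univ) closure_univ _ _ ?_
    intro z hz
    obtain ⟨T, hT, -, hzT⟩ := WC_local _ z hz
    have h2 := wc_fin hr hE hF h (S := (fun x : (⁅F, F⁆ : Subgroup G) => (x : G)) '' T)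
      (hT.image _) (by
        rintro _ ⟨x, -, rfl⟩
        exact x.2)
    refine h2 (WC_sub (K := ⁅F, F⁆) _ z (WC_mono ?_ _ hzT))
    intro x hx
    exact ⟨x, hx, rfl⟩
  rw [← top_subtype_lowerCentralSeries, Subgroup.map_le_iff_le_comap]
  exact h1

end Pool.Agent.H8.ORD
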