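import Pool.Agent.H8.ORD.Cnt

/-!
# Convex subgroups between an element and its conjugate

`normal_local`: if the convex subgroups which contain `x` but not `g x g⁻¹` are a chain without a
copy of `ℚ`, then there are no such convex subgroups.
-/

set_option autoImplicit false

namespace Pool.Agent.H8.ORD

open Subgroup

section Orders

theorem rat_Ioo {q q' : ℚ} (h : q < q') : Nonempty (ℚ ↪o Set.Ioo q q') := by
  have : Nontrivial (Set.Ioo q q') := by
    obtain ⟨a, ha1, ha2⟩ := exists_between h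
    obtain ⟨b, hb1, hb2⟩ := exists_between ha2
    exact ⟨⟨a, ha1, ha2⟩, ⟨b, ha1.trans hb1, hb2⟩, fun h1 => hb1.ne (congrArg Subtype.val h1)⟩
  exact Order.embedding_from_countable_to_dense ℚ (Set.Ioo q q')

/-- An increasing union of intervals, each of them without a copy of `ℚ`. -/
theorem scat_union {α : Type*} [LinearOrder α] (C : ℕ → α)
    (hs : ∀ j, IsEmpty (ℚ ↪o Set.Ico (C j) (C (j + 1)))) :
    IsEmpty (ℚ ↪o {D : α | C 0 ≤ D ∧ ∃ k, D ≤ C k}) := by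
  refine ⟨fun φ => ?_⟩
  obtain ⟨k, hk⟩ := (φ 1).2.2
  have hex : ∀ q : ℚ, q < 1 → ∃ j < k, C j ≤ (φ q).1 ∧ (φ q).1 < C (j + 1) := by
    classical
    intro q hq
    have h1 : (φ q).1 < C k := lt_of_lt_of_le (φ.strictMono hq) hk
    have h2 : ∃ i, (φ q).1 < C i := ⟨k, h1⟩
    have h3 := Nat.find_spec h2
    have h4 : ∀ i, i < Nat.find h2 → ¬ (φ q).1 < C i := fun i hi => Nat.find_min h2 hi
    have h5 : Nat.find h2 ≤ k := Nat.find_min' h2 h1
    generalize Nat.find h2 = i at h3 h4 h5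
    rcases i with - | i
    · exact absurd (φ q).2.1 (not_le.2 h3)
    · exact ⟨i, by omega, not_lt.1 (h4 i (Nat.lt_succ_self i)), h3⟩
  choose! j hj1 hj2 hj3 using hex
  obtain ⟨a, ha, b, hb, hab, hjab⟩ := Set.Infinite.exists_ne_map_eq_of_mapsTo
    (s := Set.Ioo (0 : ℚ) 1) (t := Set.Iio k) (f := j) (Set.Ioo_infinite one_pos)
    (fun q hq => hj1 q hq.2) (Set.finite_Iio k)
  wlog h : a < b generalizing a b with H
  · exact H b hb a ha hab.symm hjab.symm (lt_of_le_of_ne (not_lt.1 h) hab.symm)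
  obtain ⟨e⟩ := rat_Ioo h
  have hmem : ∀ p : Set.Ioo a b, (φ p.1).1 ∈ Set.Ico (C (j a)) (C (j a + 1)) := by
    intro p
    refine ⟨(hj2 a ha.2).trans (φ.monotone p.2.1.le), ?_⟩
    rw [hjab]
    exact lt_of_lt_of_le (φ.strictMono p.2.2) (hj3 b hb.2).le
  let ψ : Set.Ioo a b ↪o Set.Ico (C (j a)) (C (j a + 1)) :=
    OrderEmbedding.ofStrictMono (fun p => ⟨(φ p.1).1, hmem p⟩) (fun p p' hp => φ.strictMono hp)
  exact (hs (j a)).false (e.trans ψ)

end Orders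

variable {G : Type*} [Group G] [LinearOrder G] [MulLeftMono G] [MulRightMono G]

attribute [local instance] csLin

theorem cj_mul (a b : G) (C : CS G) : cj (a * b) C = cj a (cj b C) := by
  apply Subtype.ext
  ext x
  rw [mem_cj, mem_cj, mem_cj]
  have e : (a * b)⁻¹ * x * (a * b) = b⁻¹ * (a⁻¹ * x * a) * b := by group
  rw [e]

theorem cj_cj' (g : G) (C : CS G) : cj g (cj g⁻¹ C) = C := by
  have h := cj_cj g⁻¹ C
  rwa [inv_inv] at h

theorem normal_local {r : ℕ} (hr : NS G r) {x g : G}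
    (h : IsEmpty (ℚ ↪o {D : Subgroup G // (D : Set G).OrdConnected ∧ x ∈ D ∧ g * x * g⁻¹ ∉ D}))
    (C : Subgroup G) (hC : Cv C) (hx : x ∈ C) : g * x * g⁻¹ ∈ C := by
  by_contra hcon
  let c : CS G := ⟨ch x, cv_ch x⟩
  have hcC : c.1 ≤ C := ch_le hC hx
  have hgx : g * x * g⁻¹ ∈ (cj g c).1 := by
    rw [mem_cj]
    have e : g⁻¹ * (g * x * g⁻¹) * g = x := by group
    rw [e]
    exact mem_ch x
  have hlt : c < cj g c := by
    rw [← not_le]
    intro h1
    exact hcon (hcC (h1 hgx))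
  let K : ℕ → CS G := fun j => cj (g ^ j) c
  have hK : StrictMono K := by
    refine strictMono_nat_of_lt_succ fun j => ?_
    show cj (g ^ j) c < cj (g ^ (j + 1)) c
    rw [pow_succ, cj_mul]
    exact cj_lt _ hlt
  -- the members between `c` and `cj g c`
  have hmem : ∀ D : CS G, c ≤ D → D < cj g c → x ∈ D.1 ∧ g * x * g⁻¹ ∉ D.1 := by
    intro D h1 h2
    refine ⟨h1 (mem_ch x), fun h3 => h2.not_ge ?_⟩
    have h4 : x ∈ (cj g⁻¹ D).1 := by
      rw [mem_cj, inv_inv]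
      exact h3
    have h5 : c ≤ cj g⁻¹ D := ch_le (cj g⁻¹ D).2 h4
    have h6 := cj_mono g h5
    rwa [cj_cj'] at h6
  have hs : ∀ j, IsEmpty (ℚ ↪o Set.Ico (K j) (K (j + 1))) := by
    intro j
    refine ⟨fun ψ => ?_⟩
    have e1 : cj (g ^ j)⁻¹ (K j) = c := cj_cj (g ^ j) c
    have e2 : cj (g ^ j)⁻¹ (K (j + 1)) = cj g c := by
      show cj (g ^ j)⁻¹ (cj (g ^ (j + 1)) c) = cj g c
      rw [pow_succ, cj_mul, cj_cj]
    have h1 : ∀ q, x ∈ (cj (g ^ j)⁻¹ (ψ q).1).1 ∧ g * x * g⁻¹ ∉ (cj (g ^ j)⁻¹ (ψ q).1).1 := by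
      intro q
      refine hmem _ ?_ ?_
      · rw [← e1]
        exact cj_mono _ (ψ q).2.1
      · rw [← e2]
        exact cj_lt _ (ψ q).2.2
    refine h.false (OrderEmbedding.ofMapLEIff
      (fun q => ⟨(cj (g ^ j)⁻¹ (ψ q).1).1, (cj (g ^ j)⁻¹ (ψ q).1).2, h1 q⟩) ?_)
    intro p q
    constructor
    · intro h2
      by_contra h3
      have h4 : (ψ q).1 < (ψ p).1 := ψ.strictMono (not_le.1 h3)
      have h5 := cj_lt (g ^ j)⁻¹ h4
      exact h5.not_ge h2
    · intro h2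
      exact cj_mono (g ^ j)⁻¹ (ψ.monotone h2)
  have h1 := scat_union K hs
  have hJ : ∀ u v : {D : CS G | K 0 ≤ D ∧ ∃ k, D ≤ K k},
      Subtype.val '' Set.Icc u v = Set.Icc u.1 v.1 := by
    intro u v
    ext D
    constructor
    · rintro ⟨D, hD, rfl⟩
      exact hD
    · intro hD
      obtain ⟨k, hk⟩ := v.2.2
      exact ⟨⟨D, u.2.1.trans hD.1, k, hD.2.trans hk⟩, hD, rfl⟩
  have hb : ∀ u v : {D : CS G | K 0 ≤ D ∧ ∃ k, D ≤ K k}, (Set.Icc u v).Finite →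
      (Set.Icc u v).encard ≤ ((2 * r ^ 2 + 1 : ℕ) : ℕ∞) := by
    intro u v hfin
    rw [← Subtype.val_injective.injOn.encard_image, hJ]
    refine icc_bound hr ?_
    rw [← hJ]
    exact hfin.image _
  have h2 := hausdorff h1 (2 * r ^ 2 + 1) hb ⟨K 0, le_rfl, 0, le_rfl⟩
    ⟨K (2 * r ^ 2 + 1), hK.monotone (Nat.zero_le _), _, le_rfl⟩
  have h3 := hb _ _ h2
  rw [← Subtype.val_injective.injOn.encard_image, hJ] at h3
  have h4 : (K '' Set.Iic (2 * r ^ 2 + 1)).encard ≤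
      (Set.Icc (K 0) (K (2 * r ^ 2 + 1))).encard := by
    refine Set.encard_le_encard ?_
    rintro _ ⟨i, hi, rfl⟩
    exact ⟨hK.monotone (Nat.zero_le _), hK.monotone hi⟩
  rw [hK.injective.injOn.encard_image] at h4
  have h5 : (Set.Iic (2 * r ^ 2 + 1)).encard = ((2 * r ^ 2 + 1 + 1 : ℕ) : ℕ∞) := by
    rw [← Finset.coe_Iic, Set.encard_coe_eq_coe_finsetCard, Nat.card_Iic]
  rw [h5] at h4
  have h6 : 2 * r ^ 2 + 1 + 1 ≤ 2 * r ^ 2 + 1 := by exact_mod_cast h4.trans h3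
  omega

end Pool.Agent.H8.ORD
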