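import Pool.Agent.H8.ORD.Loc

/-!
# Solvability and the chain of convex subgroups

The equivalences for an ordered group in which no finitely generated subgroup maps onto
`ℤ ^ (r + 1)`.
-/

set_option autoImplicit false

namespace Pool.Agent.H8.ORD

open Subgroup
open scoped commutatorElement

section Groups

variable {G : Type*} [Group G]

/-- Finite special rank. -/
theorem ns_of_rank {r : ℕ} (h : ∀ B : Subgroup G, B.FG →
    ∃ s : Finset G, s.card ≤ r ∧ closure (s : Set G) = B) : NS G r := by
  classical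
  rintro B hB ⟨f, hf⟩
  obtain ⟨s, hs, rfl⟩ := h B hB
  let s' : Finset (Fin (r + 1) → ℤ) :=
    s.attach.image fun x => Multiplicative.toAdd (f ⟨x.1, subset_closure x.2⟩)
  have h1 : Submodule.span ℤ (s' : Set (Fin (r + 1) → ℤ)) = ⊤ := by
    rw [eq_top_iff]
    rintro v -
    obtain ⟨⟨b, hb⟩, hbv⟩ := hf (Multiplicative.ofAdd v)
    have h2 : Multiplicative.toAdd (f ⟨b, hb⟩) ∈
        Submodule.span ℤ (s' : Set (Fin (r + 1) → ℤ)) := by
      clear hbv
      refine closure_induction (p := fun b hb => Multiplicative.toAdd (f ⟨b, hb⟩) ∈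
        Submodule.span ℤ (s' : Set (Fin (r + 1) → ℤ))) ?_ ?_ ?_ ?_ hb
      · intro x hx
        refine Submodule.subset_span ?_
        rw [Finset.mem_coe, Finset.mem_image]
        exact ⟨⟨x, hx⟩, Finset.mem_attach _ _, rfl⟩
      · have e : (⟨1, one_mem _⟩ : closure (s : Set G)) = 1 := rfl
        rw [e, map_one, toAdd_one]
        exact Submodule.zero_mem _
      · intro x y hx hy h3 h4
        have e : (⟨x * y, mul_mem hx hy⟩ : closure (s : Set G)) = ⟨x, hx⟩ * ⟨y, hy⟩ := rfl
        rw [e, map_mul, toAdd_mul]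
        exact Submodule.add_mem _ h3 h4
      · intro x hx h3
        have e : (⟨x⁻¹, inv_mem hx⟩ : closure (s : Set G)) = ⟨x, hx⟩⁻¹ := rfl
        rw [e, map_inv, toAdd_inv]
        exact Submodule.neg_mem _ h3
    rw [hbv] at h2
    exact h2
  have h2 := finrank_span_finset_le_card (R := ℤ) s'
  rw [Set.finrank, h1, finrank_top, Module.finrank_fin_fun] at h2
  have h3 : s'.card ≤ r := Finset.card_image_le.trans (by rw [Finset.card_attach]; exact hs)
  omega

theorem NS.sub {r : ℕ} (h : NS G r) (K : Subgroup G) : NS K r := by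
  rintro B hB ⟨f, hf⟩
  have hB' : (B.map K.subtype).FG := by
    obtain ⟨S, hS⟩ := hB
    classical
    refine ⟨S.image K.subtype, ?_⟩
    rw [Finset.coe_image, ← MonoidHom.map_closure, hS]
  refine h (B.map K.subtype) hB' ?_
  let e := B.equivMapOfInjective K.subtype K.subtype_injective
  refine ⟨f.comp e.symm.toMonoidHom, ?_⟩
  intro y
  obtain ⟨b, hb⟩ := hf y
  exact ⟨e b, by simp [hb]⟩

/-- A group with nilpotent commutator subgroup is solvable. -/
theorem solvable_of_lcs {n : ℕ} (h : (commutator G).lowerCentralSeries n = ⊥) :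
    Group.IsSolvable G := by
  have h1 : ∀ k, derivedSeries G (k + 1) ≤ (commutator G).lowerCentralSeries k := by
    intro k
    induction k with
    | zero =>
      rw [derivedSeries_succ, derivedSeries_zero]
      exact le_rfl
    | succ k ih =>
      rw [derivedSeries_succ]
      exact commutator_mono ih (ih.trans (lowerCentralSeries_le_self _ k))
  refine (Group.isSolvable_def G).2 ⟨n + 1, ?_⟩
  rw [eq_bot_iff, ← h]
  exact h1 n

end Groups

section Sub

variable {G : Type*} [Group G] [LinearOrder G] [MulLeftMono G] [MulRightMono G]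

omit [MulRightMono G] in
theorem subLeft (K : Subgroup G) : MulLeftMono K :=
  ⟨fun a _ _ h => mul_le_mul_right (α := G) h a.1⟩

omit [MulLeftMono G] in
theorem subRight (K : Subgroup G) : MulRightMono K :=
  ⟨fun a _ _ h => mul_le_mul_left (α := G) h a.1⟩

/-- If the chain is finite, then the convex subgroups are normal. -/
theorem normal_of_icc (h : let _ := csLin (G := G); (Set.Icc (cb : CS G) ct).Finite)
    (C : Subgroup G) (hC : (C : Set G).OrdConnected) : C.Normal := by
  let _ := csLin (G := G)
  have h1 := ni_of_finite h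
  exact ⟨fun c hc g => h1 C hC bot_le le_top g (mem_top g) c hc⟩

omit [MulLeftMono G] [MulRightMono G] in
theorem ni_of_normal (h : ∀ C : Subgroup G, (C : Set G).OrdConnected → C.Normal) :
    NI (⊥ : Subgroup G) ⊤ :=
  fun C hC _ _ g _ c hc => (h C hC).conj_mem c hc g

theorem icc_of_countable_or {r : ℕ} (hr : NS G r)
    (h : IsEmpty (ℚ ↪o {C : Subgroup G // (C : Set G).OrdConnected})) :
    let _ := csLin (G := G); (Set.Icc (cb : CS G) ct).Finite :=
  icc_of_scattered hr h

end Sub

theorem isEmpty_sub {α : Type*} [PartialOrder α] {P Q : α → Prop} (h : ∀ a, P a → Q a)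
    (hQ : IsEmpty (ℚ ↪o {a // Q a})) : IsEmpty (ℚ ↪o {a // P a}) := by
  refine ⟨fun φ => hQ.false (OrderEmbedding.ofMapLEIff
    (fun q => (⟨(φ q).1, h _ (φ q).2⟩ : {a // Q a})) ?_)⟩
  intro p q
  exact φ.le_iff_le

/-- **The equivalences.** -/
theorem main_tfae (G : Type*) [Group G] [LinearOrder G] [MulLeftMono G] [MulRightMono G] (r : ℕ)
    (hr : NS G r) :
    List.TFAE [
      Group.IsSolvable G,
      (commutator G).lowerCentralSeries (2 * r - 1) = ⊥,
      ∀ x g : G, Group.IsSolvable (closure ({x, g} : Set G)),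
      ∀ C : Subgroup G, (C : Set G).OrdConnected → C.Normal,
      {C : Subgroup G | (C : Set G).OrdConnected}.encard ≤ 2 * r ^ 2 + 1,
      {C : Subgroup G | (C : Set G).OrdConnected}.Countable,
      IsEmpty (ℚ ↪o {C : Subgroup G // (C : Set G).OrdConnected}),
      ∀ x g : G, IsEmpty (ℚ ↪o {C : Subgroup (closure ({x, g} : Set G)) //
        (C : Set (closure ({x, g} : Set G))).OrdConnected ∧
        x ∈ C.map (closure ({x, g} : Set G)).subtype ∧
        g * x * g⁻¹ ∉ C.map (closure ({x, g} : Set G)).subtype})] := by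
  tfae_have 1 → 4 := fun h =>
    normal_of_icc ((finite_of_solvable hr h).subset (Set.subset_univ _))
  tfae_have 4 → 2 := fun h => by
    have h1 := lcs_le hr (E := (⊥ : Subgroup G)) (F := ⊤) cv_bot cv_top bot_le (ni_of_normal h)
    exact le_bot_iff.1 h1
  tfae_have 2 → 1 := fun h => solvable_of_lcs h
  tfae_have 4 → 5 := fun h => by
    let _ := csLin (G := G)
    have h1 := icc_of_ni hr (A := (cb : CS G)) (B := ct) (ni_of_normal h)
    have h2 : {C : Subgroup G | (C : Set G).OrdConnected}
        = Subtype.val '' (Set.Icc (cb : CS G) ct) := by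
      ext C
      constructor
      · intro hC
        exact ⟨⟨C, hC⟩, mem_icc _, rfl⟩
      · rintro ⟨D, -, rfl⟩
        exact D.2
    rw [h2, Subtype.val_injective.injOn.encard_image]
    exact_mod_cast h1
  tfae_have 5 → 6 := fun h => by
    have h1 : {C : Subgroup G | (C : Set G).OrdConnected}.encard ≤ ((2 * r ^ 2 + 1 : ℕ) : ℕ∞) := by
      exact_mod_cast h
    exact (Set.finite_of_encard_le_coe h1).countable
  tfae_have 6 → 7 := fun h => scattered_of_countable (Set.countable_coe_iff.2 h)
  tfae_have 7 → 4 := fun h => normal_of_icc (icc_of_countable_or hr h)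
  tfae_have 1 → 3 := fun h x g => by
    have := h
    infer_instance
  tfae_have 3 → 8 := fun h x g => by
    have i1 := subLeft (closure ({x, g} : Set G))
    have i2 := subRight (closure ({x, g} : Set G))
    refine isEmpty_sub (fun _ h1 => h1.1) (scattered_of_countable ?_)
    exact Set.countable_univ_iff.1 (finite_of_solvable (hr.sub _) (h x g)).countable
  tfae_have 8 → 4 := fun h => by
    intro C hC
    refine ⟨fun x hx g => ?_⟩
    have i1 := subLeft (closure ({x, g} : Set G))
    have i2 := subRight (closure ({x, g} : Set G))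
    have hxK : x ∈ closure ({x, g} : Set G) := subset_closure (by simp)
    have hgK : g ∈ closure ({x, g} : Set G) := subset_closure (by simp)
    refine normal_local (hr.sub (closure ({x, g} : Set G))) (x := ⟨x, hxK⟩) (g := ⟨g, hgK⟩)
      (isEmpty_sub ?_ (h x g)) (C.subgroupOf (closure ({x, g} : Set G)))
      (cv_mk fun a ha c hc b h1 h2 => hC.out ha hc ⟨h1, h2⟩) hx
    rintro D ⟨h1, h2, h3⟩
    refine ⟨h1, ⟨_, h2, rfl⟩, ?_⟩
    rintro ⟨y, hy, h4⟩
    have h5 : y = ⟨g, hgK⟩ * ⟨x, hxK⟩ * ⟨g, hgK⟩⁻¹ := Subtype.ext h4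
    rw [h5] at hy
    exact h3 hy
  tfae_finish

end Pool.Agent.H8.ORD
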