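import Mathlib

/-!
# Group theory: nilpotent groups with small normal abelian subgroups

`gen_le`: the lower central series of a group with a set `S` of generators is contained in every
normal subgroup which contains the iterated commutators of the elements of `S`.
`nil_class`: if every normal abelian subgroup of a nilpotent group lies in the `r`-th term of the
upper central series, then the class is at most `2 r - 1`.
`exists_surj`: independent generators modulo a subgroup which contains the commutators.
-/

set_option autoImplicit false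

namespace Pool.Agent.H8.ORD

open Subgroup
open scoped commutatorElement

variable {G : Type*} [Group G]

/-- Iterated commutators `[..[s₀, s₁], .., sₙ]` of elements of `S`. -/
def WC (S : Set G) : ℕ → Set G
  | 0 => S
  | n + 1 => {x | ∃ c ∈ WC S n, ∃ s ∈ S, x = ⁅c, s⁆}

theorem WC_mono {S T : Set G} (h : S ⊆ T) : ∀ n, WC S n ⊆ WC T n
  | 0 => h
  | n + 1 => by
    rintro x ⟨c, hc, s, hs, rfl⟩
    exact ⟨c, WC_mono h n hc, s, h hs, rfl⟩

theorem WC_finite {S : Set G} (h : S.Finite) : ∀ n, (WC S n).Finite
  | 0 => h
  | n + 1 => by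
    have := (WC_finite h n).image2 (fun c s => ⁅c, s⁆) h
    refine this.subset ?_
    rintro x ⟨c, hc, s, hs, rfl⟩
    exact ⟨c, hc, s, hs, rfl⟩

/-- Every iterated commutator uses only finitely many elements. -/
theorem WC_local {S : Set G} : ∀ n, ∀ x ∈ WC S n, ∃ T : Set G, T.Finite ∧ T ⊆ S ∧ x ∈ WC T n
  | 0 => fun x hx => ⟨{x}, Set.finite_singleton x, Set.singleton_subset_iff.2 hx, rfl⟩
  | n + 1 => by
    rintro x ⟨c, hc, s, hs, rfl⟩
    obtain ⟨T, h1, h2, h3⟩ := WC_local n c hc
    exact ⟨insert s T, h1.insert s, Set.insert_subset hs h2, c,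
      WC_mono (Set.subset_insert s T) n h3, s, Set.mem_insert s T, rfl⟩

/-- The elements which commute with everything modulo `M`. -/
def cenMod (M : Subgroup G) [M.Normal] : Subgroup G :=
  (center (G ⧸ M)).comap (QuotientGroup.mk' M)

theorem mem_cenMod {M : Subgroup G} [M.Normal] {x : G} :
    x ∈ cenMod M ↔ ∀ g : G, ⁅x, g⁆ ∈ M := by
  unfold cenMod
  rw [mem_comap, mem_center_iff]
  constructor
  · intro h g
    have h2 : QuotientGroup.mk' M ⁅x, g⁆ = 1 := by
      rw [map_commutatorElement]
      exact commutatorElement_eq_one_iff_mul_comm.2 (h (QuotientGroup.mk' M g)).symm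
    exact (QuotientGroup.eq_one_iff _).1 h2
  · intro h q
    obtain ⟨g, rfl⟩ := QuotientGroup.mk'_surjective M q
    have h2 : QuotientGroup.mk' M ⁅x, g⁆ = 1 := (QuotientGroup.eq_one_iff _).2 (h g)
    rw [map_commutatorElement] at h2
    exact (commutatorElement_eq_one_iff_mul_comm.1 h2).symm

instance cenMod_normal (M : Subgroup G) [M.Normal] : (cenMod M).Normal := by
  unfold cenMod
  infer_instance

/-- If the iterated commutators of weight `n + 1` of a set of generators are in the normal
subgroup `M`, then so is the `n`-th term of the lower central series. -/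
theorem gen_le {S : Set G} (hS : closure S = ⊤) : ∀ (n : ℕ) (M : Subgroup G) [M.Normal],
    WC S n ⊆ M → Subgroup.lowerCentralSeries (⊤ : Subgroup G) n ≤ M
  | 0 => by
    intro M _ h
    rw [Subgroup.lowerCentralSeries_zero, ← hS, closure_le]
    exact h
  | n + 1 => by
    intro M hM h
    have h1 : Subgroup.lowerCentralSeries (⊤ : Subgroup G) n ≤ cenMod M := by
      refine gen_le hS n (cenMod M) ?_
      intro c hc
      rw [SetLike.mem_coe, mem_cenMod]
      intro g
      have hg : g ∈ closure S := by rw [hS]; exact mem_top g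
      refine closure_induction (p := fun g _ => ⁅c, g⁆ ∈ M) ?_ ?_ ?_ ?_ hg
      · intro s hs
        exact h ⟨c, hc, s, hs, rfl⟩
      · simp
      · intro a b _ _ ha hb
        have e : ⁅c, a * b⁆ = ⁅c, a⁆ * (a * ⁅c, b⁆ * a⁻¹) := by
          simp only [commutatorElement_def]; group
        rw [e]
        exact mul_mem ha (hM.conj_mem _ hb a)
      · intro a _ ha
        have e : ⁅c, a⁻¹⁆ = a⁻¹ * ⁅c, a⁆⁻¹ * a := by
          simp only [commutatorElement_def]; group
        rw [e]
        have := hM.conj_mem _ (inv_mem ha) a⁻¹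
        simpa using this
    rw [Subgroup.lowerCentralSeries_succ, commutator_le]
    intro p hp q _
    exact (mem_cenMod.1 (h1 hp)) q

/-- The lower central series against the upper central series. -/
theorem lcs_ucs (j : ℕ) : ∀ i : ℕ,
    ⁅Subgroup.lowerCentralSeries (⊤ : Subgroup G) j, Subgroup.upperCentralSeries G i⁆ ≤ Subgroup.upperCentralSeries G (i - j - 1) := by
  have key : ∀ i : ℕ, ⁅(⊤ : Subgroup G), Subgroup.upperCentralSeries G i⁆ ≤ Subgroup.upperCentralSeries G (i - 1) := by
    intro i
    rcases i with - | i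
    · simp
    · rw [commutator_le]
      intro g _ z hz
      rw [Nat.add_sub_cancel]
      have h1 := (Subgroup.mem_upperCentralSeries_succ_iff (G := G) (n := i) (x := z)).1 hz g
      have h2 : ⁅z, g⁆ ∈ Subgroup.upperCentralSeries G i := by simpa [commutatorElement_def] using h1
      have h3 := inv_mem h2
      rwa [commutatorElement_inv] at h3
  induction j with
  | zero =>
    intro i
    rw [Subgroup.lowerCentralSeries_zero]
    simpa using key i
  | succ j ih =>
    intro i
    set M := Subgroup.upperCentralSeries G (i - (j + 1) - 1) with hM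
    have hMn : M.Normal := by rw [hM]; infer_instance
    have tr : ∀ {H : Subgroup G}, H ≤ M → H.map (QuotientGroup.mk' M) = ⊥ := by
      intro H hH
      rw [Subgroup.map_eq_bot_iff, QuotientGroup.ker_mk']
      exact hH
    have e : Subgroup.lowerCentralSeries (⊤ : Subgroup G) (j + 1) = ⁅Subgroup.lowerCentralSeries (⊤ : Subgroup G) j, (⊤ : Subgroup G)⁆ := rfl
    rw [e]
    have h1 : ⁅⁅(⊤ : Subgroup G), Subgroup.upperCentralSeries G i⁆, Subgroup.lowerCentralSeries (⊤ : Subgroup G) j⁆ ≤ M := by
      rw [commutator_comm]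
      refine (commutator_mono le_rfl (key i)).trans ((ih (i - 1)).trans ?_)
      rw [hM]
      exact Subgroup.upperCentralSeries_mono G (by omega)
    have h2 : ⁅⁅Subgroup.upperCentralSeries G i, Subgroup.lowerCentralSeries (⊤ : Subgroup G) j⁆, (⊤ : Subgroup G)⁆ ≤ M := by
      rw [commutator_comm, commutator_comm (Subgroup.upperCentralSeries G i)]
      refine (commutator_mono le_rfl (ih i)).trans ((key _).trans ?_)
      rw [hM]
      exact Subgroup.upperCentralSeries_mono G (by omega)
    have h3 : (⁅⁅Subgroup.lowerCentralSeries (⊤ : Subgroup G) j, (⊤ : Subgroup G)⁆, Subgroup.upperCentralSeries G i⁆).map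
        (QuotientGroup.mk' M) = ⊥ := by
      rw [map_commutator, map_commutator]
      refine commutator_commutator_eq_bot_of_rotate ?_ ?_
      · rw [← map_commutator, ← map_commutator]; exact tr h1
      · rw [← map_commutator, ← map_commutator]; exact tr h2
    rw [Subgroup.map_eq_bot_iff, QuotientGroup.ker_mk'] at h3
    exact h3

/-- **The class of a nilpotent group** in which normal abelian subgroups are low in the upper
central series. -/
theorem nil_class [Group.IsNilpotent G] (r : ℕ)
    (h : ∀ A : Subgroup G, A.Normal → (∀ a ∈ A, ∀ b ∈ A, a * b = b * a) →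
      A ≤ Subgroup.upperCentralSeries G r) : Subgroup.lowerCentralSeries (⊤ : Subgroup G) (2 * r - 1) = ⊥ := by
  obtain ⟨A, hA⟩ : ∃ A : Subgroup G, Maximal (fun A : Subgroup G => A.Normal ∧
      ∀ a ∈ A, ∀ b ∈ A, a * b = b * a) A := by
    refine zorn_le_nonempty₀ _ ?_ ⊥ ?_ |>.imp fun _ hx => hx.2
    · intro c hc hch y hy
      refine ⟨sSup c, ⟨?_, ?_⟩, fun z hz => le_sSup hz⟩
      · constructor
        intro x hx g
        rw [mem_sSup_of_directedOn ⟨y, hy⟩ hch.directedOn] at hx ⊢
        obtain ⟨H, hH, hx⟩ := hx
        exact ⟨H, hH, (hc hH).1.conj_mem x hx g⟩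
      · intro a ha b hb
        rw [mem_sSup_of_directedOn ⟨y, hy⟩ hch.directedOn] at ha hb
        obtain ⟨H, hH, ha⟩ := ha
        obtain ⟨K, hK, hb⟩ := hb
        rcases hch.total hH hK with h1 | h1
        · exact (hc hK).2 a (h1 ha) b hb
        · exact (hc hH).2 a ha b (h1 hb)
    · refine ⟨inferInstance, ?_⟩
      intro a ha b hb
      rw [mem_bot] at ha hb
      rw [ha, hb]
  obtain ⟨⟨hAn, hAc⟩, hmax⟩ := hA
  have hZn : (centralizer (A : Set G)).Normal := inferInstance
  -- the centralizer of `A` is `A`
  have hcen : centralizer (A : Set G) ≤ A := by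
    by_contra hcon
    have hex : ∃ i : ℕ, ¬ (centralizer (A : Set G) ⊓ Subgroup.upperCentralSeries G i ≤ A) := by
      obtain ⟨n, hn⟩ := Group.IsNilpotent.nilpotent G
      refine ⟨n, ?_⟩
      rw [hn, inf_top_eq]
      exact hcon
    classical
    have hi := Nat.find_spec hex
    have hmin : ∀ j, j < Nat.find hex → centralizer (A : Set G) ⊓ Subgroup.upperCentralSeries G j ≤ A :=
      fun j hj => not_not.1 (Nat.find_min hex hj)
    generalize Nat.find hex = i at hi hmin
    rcases i with - | i
    · apply hi
      rw [Subgroup.upperCentralSeries_zero, inf_bot_eq]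
      exact bot_le
    · rw [SetLike.not_le_iff_exists] at hi
      obtain ⟨z, ⟨hz1, hz2⟩, hzA⟩ := hi
      have hzq : ∀ g : G, ⁅g, z⁆ ∈ A := by
        intro g
        apply hmin i (Nat.lt_succ_self i)
        refine mem_inf.2 ⟨?_, ?_⟩
        · rw [commutatorElement_def]
          exact mul_mem (hZn.conj_mem z hz1 g) (inv_mem hz1)
        · have h1 := (Subgroup.mem_upperCentralSeries_succ_iff (G := G) (n := i) (x := z)).1 hz2 g
          have h2 : ⁅z, g⁆ ∈ Subgroup.upperCentralSeries G i := by simpa [commutatorElement_def] using h1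
          have h3 := inv_mem h2
          rwa [commutatorElement_inv] at h3
      -- `A ⊔ ⟨z⟩` is larger
      have hform : ∀ x ∈ A ⊔ zpowers z, ∃ a ∈ A, ∃ k : ℤ, x = a * z ^ k := by
        intro x hx
        rw [← SetLike.mem_coe, normal_mul A (zpowers z)] at hx
        obtain ⟨a, ha, b, hb, rfl⟩ := hx
        obtain ⟨k, rfl⟩ := mem_zpowers_iff.1 hb
        exact ⟨a, ha, k, rfl⟩
      have hza : ∀ a ∈ A, a * z = z * a := fun a ha => (mem_centralizer_iff.1 hz1) a ha
      have hcm : ∀ a ∈ A, ∀ k : ℤ, a * z ^ k = z ^ k * a := fun a ha k =>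
        (Commute.zpow_right (show Commute a z from hza a ha) k)
      have hle : A ⊔ zpowers z ≤ A := by
        refine hmax (y := A ⊔ zpowers z) ⟨?_, ?_⟩ le_sup_left
        · constructor
          intro x hx g
          have hg : ∀ k : ℤ, g * z ^ k * g⁻¹ ∈ A ⊔ zpowers z := by
            intro k
            have e : g * z ^ k * g⁻¹ = (⁅g, z⁆ * z) ^ k := by
              rw [commutatorElement_def, ← conj_zpow]
              group
            rw [e]
            exact zpow_mem (mul_mem (mem_sup_left (hzq g)) (mem_sup_right (mem_zpowers z))) k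
          obtain ⟨a, ha, k, rfl⟩ := hform x hx
          have e : g * (a * z ^ k) * g⁻¹ = (g * a * g⁻¹) * (g * z ^ k * g⁻¹) := by group
          rw [e]
          exact mul_mem (mem_sup_left (hAn.conj_mem a ha g)) (hg k)
        · intro x hx y hy
          obtain ⟨a, ha, k, rfl⟩ := hform x hx
          obtain ⟨b, hb, l, rfl⟩ := hform y hy
          calc a * z ^ k * (b * z ^ l) = a * (z ^ k * b) * z ^ l := by group
            _ = a * (b * z ^ k) * z ^ l := by rw [hcm b hb k]
            _ = (a * b) * (z ^ k * z ^ l) := by group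
            _ = (b * a) * (z ^ l * z ^ k) := by
                rw [hAc a ha b hb, ← zpow_add, ← zpow_add, add_comm]
            _ = b * (a * z ^ l) * z ^ k := by group
            _ = b * (z ^ l * a) * z ^ k := by rw [hcm a ha l]
            _ = b * z ^ l * (a * z ^ k) := by group
      exact hzA (hle (mem_sup_right (mem_zpowers z)))
  have hAr : A ≤ Subgroup.upperCentralSeries G r := h A hAn hAc
  rcases Nat.eq_zero_or_pos r with h0 | h0
  · subst h0
    rw [Subgroup.upperCentralSeries_zero] at hAr
    have hA0 : A = ⊥ := le_bot_iff.1 hAr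
    have h1 : (⊤ : Subgroup G) ≤ A := by
      refine le_trans ?_ hcen
      intro x _
      rw [mem_centralizer_iff]
      intro a ha
      rw [hA0] at ha
      rw [(mem_bot.1 ha)]
      simp
    rw [hA0] at h1
    rw [eq_bot_iff]
    exact le_top.trans h1
  · have h1 : Subgroup.lowerCentralSeries (⊤ : Subgroup G) (r - 1) ≤ A := by
      refine le_trans ?_ hcen
      intro x hx
      rw [mem_centralizer_iff]
      intro a ha
      have h2 := lcs_ucs (G := G) (r - 1) r (commutator_mem_commutator hx (hAr ha))
      have h3 : r - (r - 1) - 1 = 0 := by omega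
      rw [h3, Subgroup.upperCentralSeries_zero, mem_bot] at h2
      exact (commutatorElement_eq_one_iff_mul_comm.1 h2).symm
    have h2 : ∀ k, k ≤ r → Subgroup.lowerCentralSeries (⊤ : Subgroup G) (r - 1 + k) ≤ Subgroup.upperCentralSeries G (r - k) := by
      intro k
      induction k with
      | zero => intro _; simpa using h1.trans hAr
      | succ k ih =>
        intro hk
        have h3 := ih (by omega)
        have e : Subgroup.lowerCentralSeries (⊤ : Subgroup G) (r - 1 + (k + 1))
            = ⁅Subgroup.lowerCentralSeries (⊤ : Subgroup G) (r - 1 + k), (⊤ : Subgroup G)⁆ := rfl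
        rw [e, commutator_comm]
        refine (commutator_mono le_rfl h3).trans ?_
        have h4 := lcs_ucs (G := G) 0 (r - k)
        rw [Subgroup.lowerCentralSeries_zero] at h4
        have h5 : r - k - 0 - 1 = r - (k + 1) := by omega
        rw [h5] at h4
        exact h4
    have h3 := h2 r le_rfl
    have e1 : r - 1 + r = 2 * r - 1 := by omega
    rw [e1, Nat.sub_self, Subgroup.upperCentralSeries_zero] at h3
    exact le_bot_iff.1 h3

/-- **Independent generators.** `b i` are `n` generators of `G`, the commutators are in `M`, and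
the `b i` are independent modulo `M`: then `G` maps onto `ℤ ^ n`. -/
theorem exists_surj {n : ℕ} (b : Fin n → G) (hb : closure (Set.range b) = ⊤) (M : Subgroup G)
    (hM : ∀ x y : G, ⁅x, y⁆ ∈ M)
    (hi : ∀ k : Fin n → ℤ, (List.ofFn fun i => b i ^ k i).prod ∈ M → k = 0) :
    ∃ f : G →* Multiplicative (Fin n → ℤ), Function.Surjective f := by
  have hMn : M.Normal := by
    constructor
    intro x hx g
    have e : g * x * g⁻¹ = ⁅g, x⁆ * x := by rw [commutatorElement_def]; group
    rw [e]
    exact mul_mem (hM g x) hx
  let _ : CommGroup (G ⧸ M) := { (inferInstance : Group (G ⧸ M)) with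
    mul_comm := by
      intro x y
      obtain ⟨x, rfl⟩ := QuotientGroup.mk'_surjective M x
      obtain ⟨y, rfl⟩ := QuotientGroup.mk'_surjective M y
      have h1 : QuotientGroup.mk' M ⁅x, y⁆ = 1 := (QuotientGroup.eq_one_iff _).2 (hM x y)
      rw [map_commutatorElement] at h1
      exact commutatorElement_eq_one_iff_mul_comm.1 h1 }
  let φ : Multiplicative (Fin n → ℤ) →* G ⧸ M :=
    { toFun := fun k => ∏ i, (QuotientGroup.mk' M (b i)) ^ (Multiplicative.toAdd k i)
      map_one' := by simp
      map_mul' := by
        intro x y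
        rw [← Finset.prod_mul_distrib]
        refine Finset.prod_congr rfl fun i _ => ?_
        rw [toAdd_mul, Pi.add_apply, zpow_add] }
  have hφ : ∀ k, φ k = QuotientGroup.mk' M
      (List.ofFn fun i => b i ^ (Multiplicative.toAdd k i)).prod := by
    intro k
    show ∏ i, (QuotientGroup.mk' M (b i)) ^ (Multiplicative.toAdd k i) = _
    rw [map_list_prod, List.map_ofFn, List.prod_ofFn]
    refine Finset.prod_congr rfl fun i _ => ?_
    simp
  have hinj : Function.Injective φ := by
    rw [injective_iff_map_eq_one]
    intro k hk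
    rw [hφ] at hk
    have h1 := hi _ ((QuotientGroup.eq_one_iff _).1 hk)
    have : k = Multiplicative.ofAdd (Multiplicative.toAdd k) := rfl
    rw [this, h1]
    rfl
  have hsur : Function.Surjective φ := by
    rw [← MonoidHom.range_eq_top, eq_top_iff]
    have h1 : (⊤ : Subgroup G).map (QuotientGroup.mk' M) ≤ φ.range := by
      rw [← hb, map_le_iff_le_comap, closure_le]
      rintro _ ⟨i, rfl⟩
      refine ⟨Multiplicative.ofAdd (Pi.single i 1), ?_⟩
      show ∏ j, (QuotientGroup.mk' M (b j)) ^ ((Pi.single i (1 : ℤ) : Fin n → ℤ) j) = _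
      rw [Finset.prod_eq_single i]
      · simp
      · intro j _ hj
        rw [Pi.single_eq_of_ne hj]
        simp
      · intro h
        exact absurd (Finset.mem_univ i) h
    refine le_trans ?_ h1
    intro q _
    obtain ⟨g, rfl⟩ := QuotientGroup.mk'_surjective M q
    exact mem_map_of_mem _ (mem_top g)
  let e : Multiplicative (Fin n → ℤ) ≃* (G ⧸ M) := MulEquiv.ofBijective φ ⟨hinj, hsur⟩
  refine ⟨e.symm.toMonoidHom.comp (QuotientGroup.mk' M), ?_⟩
  intro y
  obtain ⟨g, hg⟩ := QuotientGroup.mk'_surjective M (e y)
  refine ⟨g, ?_⟩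
  simp only [MonoidHom.comp_apply, MulEquiv.coe_toMonoidHom]
  rw [hg]
  simp

end Pool.Agent.H8.ORD
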